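import Mathlib
import Pool.Agent.H88.GATriMain

/-!
# Exact Triangle with advice in a group with random labels

The instances are complete tripartite graphs with `n` vertices in each part and integer weights. Let
`p` be a prime number which is large compared to the weights, so that three weights add up to zero if
and only if they do so modulo `p`. The algorithm does not get the weights but their labels: `σ` is a
uniformly random bijection from `ZMod p` to a set `L` of `p` labels (bit strings), and the weight `w` is
given as `σ (w mod p)`. Moreover it gets `S` bits of advice, which may depend in an arbitrary way on the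
whole encoding `σ` (but not on the weights). It does any computation with the labels and with the advice
for free, for example hashing, sorting, walks which compute discrete logarithms. What is
counted are only the `T` group operations: a step gives the label of `∑ c_v w_v + u` for any
coefficients `c_v` and any `u`, or decodes a label which has not been obtained during the computation.
The algorithm may be random, and its answers need to be right only on the average: the weights are
random elements of `[-h, h]` without a zero triangle with probability one half, and with probability one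
half they are random elements of `[-h, h]` with a zero triangle planted at a random place; the
answer is right with probability at least `1 / 2 + δ`.

1. Every such algorithm satisfies `δ n ^ 3 ≤ 12 (r + 1) (log₂ (r + 1)) ^ 2`, `r = T + 3 n ^ 2`, or
`δ ^ 2 (2 h + 1) < 18 r ^ 2 (S + 1)`. So if the advantage `δ` is constant and the size
`h` of the weights is a large power of `n`, then `T ≥ n ^ (3 - o(1))` operations are necessary, even with
advice of polynomial length `S`: the Exact Triangle hypothesis holds in this model.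
2. `T = n ^ 3 + 1` operations without advice are always enough.

Proof. Fix the advice; then there are `2 ^ S` algorithms without any information about `σ`, and
it is enough to show that for each of them the probability that `k` independent random instances are all
answered correctly is at most `(1 / 2 + δ / 2) ^ k`. The pairs (element, label) which have been
met are collected in a set `P`. Given `P`, an instance is answered independently of
the weights if no form of its transcript takes a value in `P` or the value of another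
form. For random weights this is seldom the case, and for a planted triangle it happens only if
two of the forms differ by a multiple of the form of the triangle, or one of them is such a multiple up
to a constant. Few forms have such differences for few triangles only (an isoperimetric inequality in the
set of the linear forms).
-/

set_option autoImplicit false
set_option linter.unusedSectionVars false

namespace Pool.Agent.Results.MP_62fbe0_lc.GenericPreprocessing

open Pool.Agent.H88 Pool.Agent.H88.GA Pool.Agent.H88.GA.Tri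

/-- Some triangle has total weight zero. -/
def HasZeroTriangle {n : ℕ} (w : Var n → ℤ) : Prop :=
  ∃ T : Fin n × Fin n × Fin n, w (dir 0 T) + w (dir 1 T) + w (dir 2 T) = 0

/-- The weights with absolute value at most `h`. -/
noncomputable def weights (n h : ℕ) : Finset (Var n → ℤ) :=
  Fintype.piFinset fun _ => Finset.Icc (-(h : ℤ)) h

/-- The weights modulo `p`. -/
def red {n : ℕ} (p : ℕ) (w : Var n → ℤ) : Var n → ZMod p := fun v => ((w v : ℤ) : ZMod p)

section

variable {n p : ℕ} [Fact p.Prime] {L : Type} [Fintype L] {m : ℕ}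

open Classical in
/-- The success of an algorithm with `T` steps for the encoding `σ`: the mean value of the fraction
of the weights in `[-h, h]` with a planted zero triangle (at all places) for which the answer is yes,
and of the fraction of the weights in `[-h, h]` without a zero triangle for which it is no. -/
noncomputable def success (h T : ℕ) (D : DS (Form (ZMod p) (ZMod p) n) (ZMod p) L m)
    (σ : ZMod p ≃ L) : ℝ :=
  (((((Finset.univ : Finset (Fin n × Fin n × Fin n)) ×ˢ weights n h).filter fun i =>
      D.answer (sys (ZMod p) (ZMod p) n) T σ (red p (plant i.1 i.2)) = true).card : ℝ) /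
        ((Finset.univ : Finset (Fin n × Fin n × Fin n)) ×ˢ weights n h).card +
    (((((weights n h).filter fun w => ¬ HasZeroTriangle w).filter fun w =>
      D.answer (sys (ZMod p) (ZMod p) n) T σ (red p w) = false).card : ℝ) /
        ((weights n h).filter fun w => ¬ HasZeroTriangle w).card)) / 2

open Classical in
/-- The expected success of the random algorithm `D` for a random encoding. -/
noncomputable def expectedSuccess (h T : ℕ) {Ω : Type} [Fintype Ω] (μ : Ω → ℝ)
    (D : Ω → DS (Form (ZMod p) (ZMod p) n) (ZMod p) L m) : ℝ :=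
  ∑ ω, μ ω * ((∑ σ : ZMod p ≃ L, success h T (D ω) σ) / Fintype.card (ZMod p ≃ L))

theorem red_plant (T : Fin n × Fin n × Fin n) (w : Var n → ℤ) :
    red p (plant T w) = plant T fun v => ((w v : ℤ) : ZMod p) := by
  funext v
  unfold red plant
  rcases eq_or_ne v (dir 2 T) with rfl | hv
  · rw [Function.update_self, Function.update_self]
    push_cast
    ring
  · rw [Function.update_of_ne hv, Function.update_of_ne hv]

theorem sum_eq_zero_iff (x : ℤ) (hx : |x| < p) : ((x : ℤ) : ZMod p) = 0 ↔ x = 0 := by
  rw [ZMod.intCast_zmod_eq_zero_iff_dvd]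
  constructor
  · intro h
    exact Int.eq_zero_of_abs_lt_dvd h hx
  · rintro rfl
    exact dvd_zero _

open Classical in
theorem noZero_eq (h : ℕ) (hp : 3 * h < p) :
    (weights n h).filter (fun w => ¬ HasZeroTriangle w) =
      noZero n (fun x : ℤ => (x : ZMod p)) (Finset.Icc (-(h : ℤ)) h) := by
  unfold noZero cube weights HasZeroTriangle
  ext w
  simp only [Finset.mem_filter]
  refine and_congr_right fun hw => ?_
  rw [Fintype.mem_piFinset] at hw
  rw [not_exists]
  refine forall_congr' fun T => ?_
  rw [not_iff_not]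
  have h0 := Finset.mem_Icc.1 (hw (dir 0 T))
  have h1 := Finset.mem_Icc.1 (hw (dir 1 T))
  have h2 := Finset.mem_Icc.1 (hw (dir 2 T))
  rw [← Int.cast_add, ← Int.cast_add, sum_eq_zero_iff]
  rw [abs_lt]
  constructor <;> omega

open Classical in
theorem success_eq (h T : ℕ) (hp : 3 * h < p)
    (D : DS (Form (ZMod p) (ZMod p) n) (ZMod p) L m) (σ : ZMod p ≃ L) :
    success h T D σ = succ
      (fun i : (Fin n × Fin n × Fin n) × (Var n → ℤ) => plant i.1 fun v => ((i.2 v : ℤ) : ZMod p))
      (fun w : Var n → ℤ => fun v => ((w v : ℤ) : ZMod p)) (sys (ZMod p) (ZMod p) n)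
      (D.alg (D.memory σ)) T
      ((Finset.univ : Finset (Fin n × Fin n × Fin n)) ×ˢ cube n (Finset.Icc (-(h : ℤ)) h))
      (noZero n (fun x : ℤ => (x : ZMod p)) (Finset.Icc (-(h : ℤ)) h)) σ := by
  unfold success succ
  rw [sum_ind, sum_ind, add_div, div_div, div_div, mul_comm (2 : ℝ), mul_comm (2 : ℝ)]
  have h1 : ∀ w, D.answer (sys (ZMod p) (ZMod p) n) T σ w =
    answer (sys (ZMod p) (ZMod p) n) (D.alg (D.memory σ)) T σ w := fun _ => rfl
  simp only [h1, red_plant]
  rw [noZero_eq h hp]
  unfold weights cube red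
  congr!

theorem avg_eq {A : Type} (f : A → ℝ) (i1 i2 : Fintype A) :
    (@Finset.sum _ _ _ (@Finset.univ _ i1) f) / (@Fintype.card _ i1 : ℝ) =
      (@Finset.sum _ _ _ (@Finset.univ _ i2) f) / (@Fintype.card _ i2 : ℝ) := by
  have h : i1 = i2 := Subsingleton.elim _ _
  subst h
  rfl

open Classical in
theorem expected_eq (h T : ℕ) (hp : 3 * h < p) {Ω : Type} [Fintype Ω] (μ : Ω → ℝ)
    (D : Ω → DS (Form (ZMod p) (ZMod p) n) (ZMod p) L m) :
    expectedSuccess h T μ D = expected
      (fun i : (Fin n × Fin n × Fin n) × (Var n → ℤ) => plant i.1 fun v => ((i.2 v : ℤ) : ZMod p))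
      (fun w : Var n → ℤ => fun v => ((w v : ℤ) : ZMod p)) (sys (ZMod p) (ZMod p) n) T
      ((Finset.univ : Finset (Fin n × Fin n × Fin n)) ×ˢ cube n (Finset.Icc (-(h : ℤ)) h))
      (noZero n (fun x : ℤ => (x : ZMod p)) (Finset.Icc (-(h : ℤ)) h)) μ D := by
  unfold expectedSuccess expected
  refine Finset.sum_congr rfl fun ω _ => ?_
  rw [Finset.sum_congr rfl fun σ _ => success_eq h T hp (D ω) σ]
  exact congrArg (fun x => μ ω * x) (avg_eq _ _ _)

end

theorem part1 (n h p S T : ℕ) [Fact p.Prime] (hn : 0 < n) (hp : 3 * h < p) (L : Type) [Fintype L]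
    (hL : Fintype.card L = p) (δ : ℝ) (hδ : 0 < δ) (Ω : Type) [Fintype Ω] (μ : Ω → ℝ)
    (hμ : ∀ ω, 0 ≤ μ ω) (hμ1 : ∑ ω, μ ω = 1)
    (D : Ω → DS (Form (ZMod p) (ZMod p) n) (ZMod p) L (2 ^ S))
    (hD : 1 / 2 + δ ≤ expectedSuccess h T μ D) :
    δ * n ^ 3 ≤ 12 * (T + 3 * n ^ 2 + 1) * (Nat.log 2 (T + 3 * n ^ 2 + 1) : ℝ) ^ 2 ∨
      δ ^ 2 * (2 * h + 1) < 18 * (T + 3 * n ^ 2) ^ 2 * (S + 1) := by
  rw [or_iff_not_imp_right]
  intro hbig
  push Not at hbig
  rw [expected_eq h T hp] at hD
  have hcard : ((Finset.Icc (-(h : ℤ)) h).card : ℝ) = 2 * h + 1 := by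
    have : (Finset.Icc (-(h : ℤ)) h).card = 2 * h + 1 := by
      rw [Int.card_Icc]
      omega
    rw [this]
    push_cast
    ring
  have hp0 := (Fact.out : p.Prime).pos
  have h1 := main (ZMod p) (fun x : ℤ => (x : ZMod p)) (Finset.Icc (-(h : ℤ)) h) ?_ hn
    ⟨Fintype.equivOfCardEq ((ZMod.card p).trans hL.symm)⟩ S T δ hδ μ hμ hμ1 D hD
    (by rw [hcard]; exact hbig)
  · push_cast at h1
    exact h1
  · intro x hx y hy hxy
    rw [Finset.mem_coe, Finset.mem_Icc] at hx hy
    have h2 : ((x - y : ℤ) : ZMod p) = 0 := by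
      simp only at hxy
      push_cast
      rw [hxy, sub_self]
    rw [sum_eq_zero_iff] at h2
    · omega
    · rw [abs_lt]
      constructor <;> omega

/-! ### The trivial algorithm -/

section

variable {n p : ℕ} [Fact p.Prime] {L : Type} [Fintype L]

/-- An enumeration of the triangles. -/
noncomputable def en (n : ℕ) : Fin (n ^ 3) ≃ Fin n × Fin n × Fin n :=
  (Fintype.equivFinOfCardEq (by simp only [Fintype.card_prod, Fintype.card_fin]; ring)).symm

/-- The forms of the trivial algorithm. -/
noncomputable def frm (n p : ℕ) [Fact p.Prime] (t : ℕ) : Form (ZMod p) (ZMod p) n :=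
  if ht : t < n ^ 3 then zf (ZMod p) (ZMod p) (en n ⟨t, ht⟩) else (0, 0)

open Classical in
/-- Check all the triangles. -/
noncomputable def trivialAlg (n p : ℕ) [Fact p.Prime] (L : Type) :
    Alg (Form (ZMod p) (ZMod p) n) L where
  next h := .eval (frm n p (h.length - 3 * n ^ 2))
  out h := decide (∃ e ∈ h, ∃ e' ∈ h, e.1 = (0, 0) ∧
    (∃ T, e'.1 = zf (ZMod p) (ZMod p) T) ∧ e.2 = e'.2)

theorem trivialAlg_trans (σ : ZMod p ≃ L) (w : Var n → ZMod p) (t : ℕ) :
    (GA.trans (sys (ZMod p) (ZMod p) n) (trivialAlg n p L) σ w t).length = 3 * n ^ 2 + t ∧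
      ∀ s < t, ∃ e ∈ GA.trans (sys (ZMod p) (ZMod p) n) (trivialAlg n p L) σ w t,
        e.1 = frm n p s := by
  induction t with
  | zero =>
    refine ⟨?_, fun s hs => absurd hs (Nat.not_lt_zero _)⟩
    rw [GA.trans, List.length_map, init_length]
    ring
  | succ t ih =>
    obtain ⟨ih1, ih2⟩ := ih
    have h1 : GA.trans (sys (ZMod p) (ZMod p) n) (trivialAlg n p L) σ w (t + 1) =
        (frm n p t, σ ((sys (ZMod p) (ZMod p) n).ev (frm n p t) w)) ::
          GA.trans (sys (ZMod p) (ZMod p) n) (trivialAlg n p L) σ w t := by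
      rw [GA.trans]
      have h2 : (trivialAlg n p L).next
          (GA.trans (sys (ZMod p) (ZMod p) n) (trivialAlg n p L) σ w t) = .eval (frm n p t) := by
        change Step.eval (frm n p ((GA.trans (sys (ZMod p) (ZMod p) n)
          (trivialAlg n p L) σ w t).length - 3 * n ^ 2)) = _
        rw [ih1, Nat.add_sub_cancel_left]
      rw [h2]
      rfl
    rw [h1]
    refine ⟨by rw [List.length_cons, ih1]; ring, fun s hs => ?_⟩
    rcases Nat.lt_succ_iff_lt_or_eq.1 hs with hs | rfl
    · obtain ⟨e, he, h2⟩ := ih2 s hs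
      exact ⟨e, List.mem_cons_of_mem _ he, h2⟩
    · exact ⟨_, List.mem_cons_self, rfl⟩

open Classical in
theorem trivialAlg_answer (σ : ZMod p ≃ L) (w : Var n → ℤ) (hw : ∀ v, 3 * |w v| < p) :
    answer (sys (ZMod p) (ZMod p) n) (trivialAlg n p L) (n ^ 3 + 1) σ (red p w) = true ↔
      HasZeroTriangle w := by
  set M := sys (ZMod p) (ZMod p) n with hM
  set τ := GA.trans M (trivialAlg n p L) σ (red p w) (n ^ 3 + 1) with hτ
  have hcons : ∀ e ∈ τ, σ (M.ev e.1 (red p w)) = e.2 :=
    ((trans_iff M (trivialAlg n p L) σ (red p w) (n ^ 3 + 1) τ).1 rfl).2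
  have hzero : ∀ T : Fin n × Fin n × Fin n,
      M.ev (zf (ZMod p) (ZMod p) T) (red p w) = 0 ↔
        w (dir 0 T) + w (dir 1 T) + w (dir 2 T) = 0 := by
    intro T
    rw [hM, ev_zf]
    unfold red
    rw [← Int.cast_add, ← Int.cast_add, sum_eq_zero_iff]
    have h0 := hw (dir 0 T)
    have h1 := hw (dir 1 T)
    have h2 := hw (dir 2 T)
    have h3 := abs_add_three (w (dir 0 T)) (w (dir 1 T)) (w (dir 2 T))
    omega
  have hev0 : M.ev (0, 0) (red p w) = 0 := by simp [hM, sys]
  have hiff : answer M (trivialAlg n p L) (n ^ 3 + 1) σ (red p w) = true ↔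
      ∃ e ∈ τ, ∃ e' ∈ τ, e.1 = (0, 0) ∧ (∃ T, e'.1 = zf (ZMod p) (ZMod p) T) ∧ e.2 = e'.2 := by
    unfold answer
    simp only [trivialAlg, decide_eq_true_eq]
    rfl
  rw [hiff]
  constructor
  · rintro ⟨e, he, e', he', h1, ⟨T, h2⟩, h3⟩
    rw [← hcons e he, ← hcons e' he', h1, h2] at h3
    have h4 := σ.injective h3
    rw [hev0] at h4
    exact ⟨T, (hzero T).1 h4.symm⟩
  · rintro ⟨T, hT⟩
    obtain ⟨-, h1⟩ := trivialAlg_trans (L := L) σ (red p w) (n ^ 3 + 1)
    obtain ⟨e, he, he1⟩ := h1 (n ^ 3) (Nat.lt_succ_self _)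
    have hlt := ((en n).symm T).2
    obtain ⟨e', he', he1'⟩ := h1 ((en n).symm T).1 (hlt.trans (Nat.lt_succ_self _))
    have e1 : e.1 = (0, 0) := by rw [he1, frm, dif_neg (lt_irrefl _)]
    have e2 : e'.1 = zf (ZMod p) (ZMod p) T := by
      rw [he1', frm, dif_pos hlt]
      congr 1
      exact (en n).apply_symm_apply T
    refine ⟨e, he, e', he', e1, ⟨T, e2⟩, ?_⟩
    rw [← hcons e he, ← hcons e' he', e1, e2, hev0, (hzero T).2 hT]

end

/-- **Exact Triangle with advice in a group with random labels.** -/
theorem result :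
    (∀ (n h p S T : ℕ) [Fact p.Prime], 0 < n → 3 * h < p →
      ∀ (L : Type) [Fintype L], Fintype.card L = p → ∀ δ : ℝ, 0 < δ →
      ∀ (Ω : Type) [Fintype Ω] (μ : Ω → ℝ), (∀ ω, 0 ≤ μ ω) → ∑ ω, μ ω = 1 →
      ∀ D : Ω → DS (Form (ZMod p) (ZMod p) n) (ZMod p) L (2 ^ S),
        1 / 2 + δ ≤ expectedSuccess h T μ D →
        δ * n ^ 3 ≤ 12 * (T + 3 * n ^ 2 + 1) * (Nat.log 2 (T + 3 * n ^ 2 + 1) : ℝ) ^ 2 ∨
          δ ^ 2 * (2 * h + 1) < 18 * (T + 3 * n ^ 2) ^ 2 * (S + 1)) ∧
    (∀ (n p : ℕ) [Fact p.Prime] (L : Type) [Fintype L],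
      ∃ A : Alg (Form (ZMod p) (ZMod p) n) L, ∀ (σ : ZMod p ≃ L) (w : Var n → ℤ),
        (∀ v, 3 * |w v| < p) →
        (answer (sys (ZMod p) (ZMod p) n) A (n ^ 3 + 1) σ (red p w) = true ↔
          HasZeroTriangle w)) := by
  refine ⟨?_, ?_⟩
  · intro n h p S T _ hn hp L _ hL δ hδ Ω _ μ hμ hμ1 D hD
    exact part1 n h p S T hn hp L hL δ hδ Ω μ hμ hμ1 D hD
  · intro n p _ L _
    exact ⟨trivialAlg n p L, fun σ w hw => trivialAlg_answer σ w hw⟩

end Pool.Agent.Results.MP_62fbe0_lc.GenericPreprocessing
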