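import Mathlib

/-!
# Exact Triangle with a small fast memory

The instances are complete tripartite graphs with `n` vertices in each part and integral weights. The algorithm has a fast
memory of `S` registers. It can replace the contents of a register by any affine form in the weights of the instance (a
transfer from a slow memory of unlimited size, which contains whatever affine forms it likes, at the cost of one transfer),
or by an affine combination of the contents of the registers (free), and it can test whether a polynomial in the contents of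
the registers vanishes (free). The next step may depend on the outcomes of the tests.

1. Average case: if the weights are random elements of `[-h, h]`, then a program with at most `Q` transfers and `T` tests of
polynomials of degree at most `d` can notice a planted triangle of weight zero at most with the advantage
`(⌊Q / S⌋ + 1) (2 S) ^ (3 / 2) / n ^ 3 + T d / (2 h + 1)`.
2. So random programs of this kind which are right with probability at least `2 / 3` for all instances with weights up to
`2 h`, `2 h + 1 ≥ 6 (n ^ 3 + T d)`, satisfy `n ^ 6 ≤ 288 (⌊Q / S⌋ + 1) ^ 2 S ^ 3`: they need about `n ^ 3 / (17 √S)`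
transfers.
3. With `3 b ^ 2` registers `3 b ^ 2 m ^ 3` transfers are enough, if `n ≤ m b` (this is exhaustive search, block by
block); so (2) is optimal up to a constant factor.

Proof of (1). Between two groups of `S` transfers the contents of the registers, and so all the tests, belong to a space of
linear forms of dimension at most `2 S`, up to constants. If a test polynomial does not vanish identically, but vanishes
whenever the weight of the triangle `t` is zero, then the form of `t` belongs to the space; and by the inequality of Loomis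
and Whitney at most `(2 S) ^ (3 / 2)` triangles have their form in a space of dimension `2 S`. All the other triangles are
not seen by the program if the weights are random, also when one of them is planted (Schwartz-Zippel).
-/

set_option autoImplicit false

namespace Pool.Agent.Results.MP_62fbe0_lc.SmallFastMemory

open Finset

/-- The edges of the complete tripartite graph with `n` vertices in each part: `(0, i, j)` joins the vertex `i` of the first
part and the vertex `j` of the second part, `(1, j, k)` the second part and the third part, `(2, i, k)` the first part and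
the third part. -/
abbrev Edge (n : ℕ) := Fin 3 × Fin n × Fin n

/-- There is a triangle of weight zero. -/
def ZeroTriangle {n : ℕ} (w : Edge n → ℤ) : Prop :=
  ∃ i j k : Fin n, w (0, i, j) + w (1, j, k) + w (2, i, k) = 0

/-- Programs with the set `R` of registers, for inputs `w : E → ℚ`. `load r c u`: the register `r` gets the value
`∑ c e * w e + u`. `set r c u`: the register `r` gets the value `∑ c s * x s + u`, where `x` are the contents of the
registers. `test f yes no`: go on with `yes` if the value of the polynomial `f` at `x` is zero, with `no` otherwise. -/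
inductive Prog (R E : Type) : Type
  | answer (b : Bool) : Prog R E
  | load (r : R) (c : E → ℚ) (u : ℚ) (next : Prog R E) : Prog R E
  | set (r : R) (c : R → ℚ) (u : ℚ) (next : Prog R E) : Prog R E
  | test (f : MvPolynomial R ℚ) (yes no : Prog R E) : Prog R E

namespace Prog

variable {R E : Type}

/-- The largest number of steps `load` on a branch. -/
def loads : Prog R E → ℕ
  | answer _ => 0
  | load _ _ _ p => p.loads + 1
  | set _ _ _ p => p.loads
  | test _ p q => max p.loads q.loads

/-- The largest number of steps `test` on a branch. -/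
def tests : Prog R E → ℕ
  | answer _ => 0
  | load _ _ _ p => p.tests
  | set _ _ _ p => p.tests
  | test _ p q => max p.tests q.tests + 1

/-- The largest total degree of a polynomial which is tested. -/
noncomputable def degree : Prog R E → ℕ
  | answer _ => 0
  | load _ _ _ p => p.degree
  | set _ _ _ p => p.degree
  | test f p q => max f.totalDegree (max p.degree q.degree)

open Classical in
/-- The answer of the program for the input `w` if the registers contain `x`. -/
noncomputable def run [Fintype R] [Fintype E] (w : E → ℚ) : Prog R E → (R → ℚ) → Bool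
  | answer b, _ => b
  | load r c u p, x => p.run w (Function.update x r (∑ e, c e * w e + u))
  | set r c u p, x => p.run w (Function.update x r (∑ s, c s * x s + u))
  | test f p q, x => if MvPolynomial.eval x f = 0 then p.run w x else q.run w x

end Prog

/-- The program (with all registers empty at the beginning) is right about the instance `w`. -/
def Right {R : Type} [Fintype R] {n : ℕ} (p : Prog R (Edge n)) (w : Edge n → ℤ) : Prop :=
  p.run (fun e => (w e : ℚ)) (fun _ => 0) = true ↔ ZeroTriangle w

/-- The triangles `(i, j, k)`, with the edges `(0, i, j)`, `(1, j, k)` and `(2, i, k)`. -/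
abbrev Tri (n : ℕ) := Fin n × Fin n × Fin n

/-- All systems of integral weights in `[-h, h]`. -/
noncomputable def box (E : Type) [Fintype E] [DecidableEq E] (h : ℕ) : Finset (E → ℤ) :=
  Fintype.piFinset fun _ => Icc (-(h : ℤ)) h

/-- A triangle of weight zero is planted at `t = (i, j, k)`: the weight of the edge `(2, i, k)` is changed. -/
def plantZ {n : ℕ} (t : Tri n) (w : Edge n → ℤ) : Edge n → ℤ := fun e =>
  if e = (2, t.1, t.2.2) then - w (0, t.1, t.2.1) - w (1, t.2.1, t.2.2) else w e

open Classical in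
/-- The number of the `w` with weights in `[-h, h]` such that the answer of the program for the instance `g w` is yes. -/
noncomputable def yes {R : Type} [Fintype R] {n : ℕ} (p : Prog R (Edge n)) (h : ℕ)
    (g : (Edge n → ℤ) → (Edge n → ℤ)) : ℝ :=
  (((box (Edge n) h).filter (fun w => p.run (fun e => (g w e : ℚ)) (fun _ => 0) = true)).card : ℝ)

/-- The probability of the answer yes for random weights in `[-h, h]`. -/
noncomputable def randomRate {R : Type} [Fintype R] {n : ℕ} (p : Prog R (Edge n)) (h : ℕ) : ℝ :=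
  yes p h id / (box (Edge n) h).card

/-- The probability of the answer yes for random weights in `[-h, h]` with a triangle of weight zero planted at a random
place. -/
noncomputable def plantedRate {R : Type} [Fintype R] {n : ℕ} (p : Prog R (Edge n)) (h : ℕ) : ℝ :=
  (∑ t : Tri n, yes p h (plantZ t)) / (n ^ 3 * (box (Edge n) h).card)

/-! ### The Loomis-Whitney inequality -/

theorem lw {α : Type} [DecidableEq α] (P : Finset (α × α × α)) : P.card ^ 2 ≤
    (P.image (fun p => (p.2.1, p.2.2))).card * (P.image (fun p => (p.1, p.2.2))).card *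
      (P.image (fun p => (p.1, p.2.1))).card := by
  classical
  obtain ⟨f, hf⟩ : ∃ f : α × α × α → α × α, f = fun p => (p.2.1, p.2.2) := ⟨_, rfl⟩
  rw [← hf]
  obtain ⟨I, hI⟩ : ∃ I, I = P.image f := ⟨_, rfl⟩
  have h1 : P.card = ∑ b ∈ I, (P.filter (fun p => f p = b)).card := by
    rw [hI]
    exact Finset.card_eq_sum_card_image f P
  have h2 : P.card ^ 2 ≤ I.card * ∑ b ∈ I, (P.filter (fun p => f p = b)).card ^ 2 := by
    rw [h1]
    exact sq_sum_le_card_mul_sum_sq
  obtain ⟨S, hS⟩ : ∃ S, S = (P ×ˢ P).filter (fun x => f x.1 = f x.2) := ⟨_, rfl⟩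
  have h3 : ∑ b ∈ I, (P.filter (fun p => f p = b)).card ^ 2 = S.card := by
    have hm : ∀ x ∈ S, f x.1 ∈ I := by
      intro x hx
      rw [hS, Finset.mem_filter, Finset.mem_product] at hx
      rw [hI]
      exact Finset.mem_image_of_mem f hx.1.1
    rw [Finset.card_eq_sum_card_fiberwise hm]
    refine Finset.sum_congr rfl fun b _ => ?_
    rw [_root_.sq, ← Finset.card_product]
    congr 1
    ext x
    rw [hS]
    simp only [Finset.mem_product, Finset.mem_filter]
    constructor
    · rintro ⟨⟨h1, h2⟩, h3, h4⟩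
      exact ⟨⟨⟨h1, h3⟩, h2.trans h4.symm⟩, h2⟩
    · rintro ⟨⟨⟨h1, h3⟩, h5⟩, h2⟩
      exact ⟨⟨h1, h2⟩, h3, h5.symm.trans h2⟩
  have h4 : S.card ≤ (P.image (fun p => (p.1, p.2.2))).card * (P.image (fun p => (p.1, p.2.1))).card := by
    rw [← Finset.card_product]
    refine Finset.card_le_card_of_injOn (fun x => ((x.1.1, x.1.2.2), (x.2.1, x.2.2.1))) ?_ ?_
    · intro x hx
      rw [Finset.mem_coe, hS, Finset.mem_filter, Finset.mem_product] at hx
      rw [Finset.mem_coe, Finset.mem_product]
      exact ⟨Finset.mem_image_of_mem (fun p : α × α × α => (p.1, p.2.2)) hx.1.1,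
        Finset.mem_image_of_mem (fun p : α × α × α => (p.1, p.2.1)) hx.1.2⟩
    · rintro ⟨⟨x, y, z⟩, x', y', z'⟩ hx ⟨⟨u, v, w⟩, u', v', w'⟩ hu h
      rw [Finset.mem_coe, hS, Finset.mem_filter, hf] at hx hu
      simp only [Prod.mk.injEq] at h hx hu ⊢
      obtain ⟨⟨e1, e2⟩, e3, e4⟩ := h
      obtain ⟨-, e5, e6⟩ := hx
      obtain ⟨-, e7, e8⟩ := hu
      refine ⟨⟨e1, ?_, e2⟩, e3, e4, ?_⟩
      · rw [e5, e4, e7]
      · rw [← e6, e2, e8]
  calc P.card ^ 2 ≤ I.card * ∑ b ∈ I, (P.filter (fun p => f p = b)).card ^ 2 := h2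
    _ = I.card * S.card := by rw [h3]
    _ ≤ I.card * ((P.image (fun p => (p.1, p.2.2))).card *
        (P.image (fun p => (p.1, p.2.1))).card) := Nat.mul_le_mul_left _ h4
    _ = _ := by rw [hI, mul_assoc]

/-! ### Triangles in a space of linear forms -/

/-- the linear form of a triangle -/
def tau {n : ℕ} (t : Tri n) : Edge n → ℚ := fun e =>
  if e = (0, t.1, t.2.1) ∨ e = (1, t.2.1, t.2.2) ∨ e = (2, t.1, t.2.2) then 1 else 0

open Classical in
theorem card_image_le {n : ℕ} (V : Submodule ℚ (Edge n → ℚ)) (P : Finset (Tri n)) (hP : ∀ t ∈ P, tau t ∈ V)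
    (π : Tri n → Edge n) (hπ : ∀ t t', tau t (π t') = if π t = π t' then 1 else 0) :
    (P.image π).card ≤ Module.finrank ℚ V := by
  have hch : ∀ e : P.image π, ∃ t ∈ P, π t = e.1 := fun e => by
    obtain ⟨t, ht, he⟩ := Finset.mem_image.1 e.2
    exact ⟨t, ht, he⟩
  choose g hg hge using hch
  have hli : LinearIndependent ℚ (fun e : P.image π => (⟨tau (g e), hP _ (hg e)⟩ : V)) := by
    rw [Fintype.linearIndependent_iff]
    intro c hc e
    have h1 := congrArg (fun v : V => (v : Edge n → ℚ) (π (g e))) hc
    simp only [Submodule.coe_sum, Submodule.coe_smul, Finset.sum_apply, Pi.smul_apply, smul_eq_mul, Submodule.coe_zero,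
      Pi.zero_apply] at h1
    rw [Finset.sum_eq_single e] at h1
    · rw [hπ, if_pos rfl, mul_one] at h1
      exact h1
    · intro e' _ hne
      rw [hπ, if_neg, mul_zero]
      rw [hge, hge]
      exact fun h => hne (Subtype.ext h)
    · intro h
      exact absurd (Finset.mem_univ e) h
  have h2 := hli.fintype_card_le_finrank
  rwa [Fintype.card_coe] at h2

theorem inj3 {n : ℕ} (s : Fin 3) : Function.Injective (fun q : Fin n × Fin n => (s, q.1, q.2)) := by
  rintro ⟨a, b⟩ ⟨c, d⟩ h
  simpa using h

open Classical in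
theorem card_tri {n : ℕ} (V : Submodule ℚ (Edge n → ℚ)) :
    ((univ : Finset (Tri n)).filter (fun t => tau t ∈ V)).card ^ 2 ≤ Module.finrank ℚ V ^ 3 := by
  set P := (univ : Finset (Tri n)).filter (fun t => tau t ∈ V) with hPdef
  have hP : ∀ t ∈ P, tau t ∈ V := fun t ht => (Finset.mem_filter.1 ht).2
  have h0 : (P.image (fun p => (p.1, p.2.1))).card ≤ Module.finrank ℚ V := by
    refine le_trans ?_ (card_image_le V P hP (fun t => ((0 : Fin 3), t.1, t.2.1)) ?_)
    · have : P.image (fun t => ((0 : Fin 3), t.1, t.2.1)) =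
          (P.image (fun p => (p.1, p.2.1))).image (fun q => ((0 : Fin 3), q.1, q.2)) := by
        rw [Finset.image_image]
        rfl
      rw [this, Finset.card_image_of_injective _ (inj3 _)]
    · intro t t'
      unfold tau
      simp only [Prod.mk.injEq, true_and, Fin.reduceEq, false_and, or_false, zero_ne_one]
      by_cases h : t'.1 = t.1 ∧ t'.2.1 = t.2.1
      · rw [if_pos h, if_pos ⟨h.1.symm, h.2.symm⟩]
      · rw [if_neg h, if_neg fun h' => h ⟨h'.1.symm, h'.2.symm⟩]
  have h1 : (P.image (fun p => (p.2.1, p.2.2))).card ≤ Module.finrank ℚ V := by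
    refine le_trans ?_ (card_image_le V P hP (fun t => ((1 : Fin 3), t.2.1, t.2.2)) ?_)
    · have : P.image (fun t => ((1 : Fin 3), t.2.1, t.2.2)) =
          (P.image (fun p => (p.2.1, p.2.2))).image (fun q => ((1 : Fin 3), q.1, q.2)) := by
        rw [Finset.image_image]
        rfl
      rw [this, Finset.card_image_of_injective _ (inj3 _)]
    · intro t t'
      unfold tau
      simp only [Prod.mk.injEq, true_and, Fin.reduceEq, false_and, or_false, one_ne_zero, false_or]
      by_cases h : t'.2.1 = t.2.1 ∧ t'.2.2 = t.2.2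
      · rw [if_pos h, if_pos ⟨h.1.symm, h.2.symm⟩]
      · rw [if_neg h, if_neg fun h' => h ⟨h'.1.symm, h'.2.symm⟩]
  have h2 : (P.image (fun p => (p.1, p.2.2))).card ≤ Module.finrank ℚ V := by
    refine le_trans ?_ (card_image_le V P hP (fun t => ((2 : Fin 3), t.1, t.2.2)) ?_)
    · have : P.image (fun t => ((2 : Fin 3), t.1, t.2.2)) =
          (P.image (fun p => (p.1, p.2.2))).image (fun q => ((2 : Fin 3), q.1, q.2)) := by
        rw [Finset.image_image]
        rfl
      rw [this, Finset.card_image_of_injective _ (inj3 _)]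
    · intro t t'
      unfold tau
      simp only [Prod.mk.injEq, true_and, Fin.reduceEq, false_and, false_or]
      by_cases h : t'.1 = t.1 ∧ t'.2.2 = t.2.2
      · rw [if_pos h, if_pos ⟨h.1.symm, h.2.symm⟩]
      · rw [if_neg h, if_neg fun h' => h ⟨h'.1.symm, h'.2.symm⟩]
  calc P.card ^ 2 ≤ _ := lw P
    _ ≤ Module.finrank ℚ V * Module.finrank ℚ V * Module.finrank ℚ V :=
        Nat.mul_le_mul (Nat.mul_le_mul h1 h2) h0
    _ = _ := by ring

/-! ### The generic path -/

section generic

variable {R E : Type}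

/-- the value of an affine form -/
def ev [Fintype E] (a : (E → ℚ) × ℚ) (w : E → ℚ) : ℚ := ∑ e, a.1 e * w e + a.2

/-- the test polynomial vanishes for all inputs -/
def Van [Fintype E] (f : MvPolynomial R ℚ) (G : R → (E → ℚ) × ℚ) : Prop :=
  ∀ w : E → ℚ, MvPolynomial.eval (fun r => ev (G r) w) f = 0

/-- the test polynomial vanishes for all inputs of the form `ℓ w` -/
def VanOn [Fintype E] (ℓ : E → MvPolynomial E ℚ) (f : MvPolynomial R ℚ) (G : R → (E → ℚ) × ℚ) : Prop :=
  ∀ w : E → ℚ, MvPolynomial.eval (fun r => ev (G r) (fun e => MvPolynomial.eval w (ℓ e))) f = 0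

/-- the new contents after a step `set` -/
def comb [Fintype R] (c : R → ℚ) (u : ℚ) (G : R → (E → ℚ) × ℚ) : (E → ℚ) × ℚ := ∑ s, c s • G s + (0, u)

theorem ev_comb [Fintype R] [Fintype E] (c : R → ℚ) (u : ℚ) (G : R → (E → ℚ) × ℚ) (w : E → ℚ) :
    ev (comb c u G) w = ∑ s, c s * ev (G s) w + u := by
  unfold ev comb
  simp only [Prod.fst_add, Prod.snd_add, Prod.fst_sum, Prod.snd_sum, Prod.smul_fst, Prod.smul_snd, add_zero,
    Finset.sum_apply, Pi.smul_apply, smul_eq_mul, mul_add, Finset.sum_add_distrib, Finset.sum_mul, Finset.mul_sum]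
  rw [Finset.sum_comm]
  simp only [mul_assoc, add_assoc]

open Classical in
/-- the answer on the generic path -/
noncomputable def gen [Fintype R] [Fintype E] : Prog R E → (R → (E → ℚ) × ℚ) → Bool
  | .answer b, _ => b
  | .load r c u p, G => gen p (Function.update G r (c, u))
  | .set r c u p, G => gen p (Function.update G r (comb c u G))
  | .test f p q, G => if Van f G then gen p G else gen q G

open Classical in
/-- some test on the generic path sees the substitution `ℓ` -/
def Hit [Fintype R] [Fintype E] (ℓ : E → MvPolynomial E ℚ) : Prog R E → (R → (E → ℚ) × ℚ) → Prop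
  | .answer _, _ => False
  | .load r c u p, G => Hit ℓ p (Function.update G r (c, u))
  | .set r c u p, G => Hit ℓ p (Function.update G r (comb c u G))
  | .test f p q, G => if Van f G then Hit ℓ p G else VanOn ℓ f G ∨ Hit ℓ q G

theorem card_box [Fintype E] [DecidableEq E] (h : ℕ) : (box E h).card = (2 * h + 1) ^ Fintype.card E := by
  unfold box
  rw [Fintype.card_piFinset, Finset.prod_const, Finset.card_univ, Int.card_Icc]
  congr 1
  omega

/-- Schwartz-Zippel -/
theorem sz [Fintype E] [DecidableEq E] (P : MvPolynomial E ℚ) (hP : P ≠ 0) (h : ℕ) :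
    (((box E h).filter (fun w => MvPolynomial.eval (fun e => (w e : ℚ)) P = 0)).card : ℝ) ≤
      P.totalDegree * ((box E h).card / (2 * h + 1)) := by
  classical
  set n := Fintype.card E with hn
  set g : E ≃ Fin n := Fintype.equivFin E with hg
  set S : Finset ℚ := (Icc (-(h : ℤ)) h).image (fun z : ℤ => (z : ℚ)) with hS
  have hScard : S.card = 2 * h + 1 := by
    rw [hS, Finset.card_image_of_injective _ Int.cast_injective, Int.card_Icc]
    omega
  have hP' : MvPolynomial.rename g P ≠ 0 := by
    intro h0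
    exact hP ((MvPolynomial.rename_injective _ g.injective) (by rw [h0, map_zero]))
  have h1 := MvPolynomial.schwartz_zippel_totalDegree hP' S
  have hd : (MvPolynomial.rename g P).totalDegree ≤ P.totalDegree := MvPolynomial.totalDegree_rename_le _ _
  set Z := (Fintype.piFinset fun _ : Fin n => S).filter
    (fun f => MvPolynomial.eval f (MvPolynomial.rename g P) = 0) with hZ
  have h2 : ((box E h).filter (fun w => MvPolynomial.eval (fun e => (w e : ℚ)) P = 0)).card ≤ Z.card := by
    refine Finset.card_le_card_of_injOn (fun w i => (w (g.symm i) : ℚ)) ?_ ?_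
    · intro w hw
      rw [Finset.mem_coe, Finset.mem_filter] at hw
      rw [Finset.mem_coe, hZ, Finset.mem_filter, Fintype.mem_piFinset]
      refine ⟨fun i => ?_, ?_⟩
      · rw [hS]
        exact Finset.mem_image_of_mem _ (Fintype.mem_piFinset.1 hw.1 _)
      · rw [MvPolynomial.eval_rename]
        have : (fun i => (w (g.symm i) : ℚ)) ∘ g = fun e => (w e : ℚ) := by
          funext e
          simp
        rw [this]
        exact hw.2
    · intro w _ w' _ hww
      funext e
      have := congrFun hww (g e)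
      simpa using this
  have h3 : (Z.card : ℝ) / ((2 * h + 1 : ℕ) : ℝ) ^ n ≤ P.totalDegree / ((2 * h + 1 : ℕ) : ℝ) := by
    have h4 : (Z.card : ℝ) / (S.card : ℝ) ^ n ≤ (MvPolynomial.rename g P).totalDegree / (S.card : ℝ) := by
      have h6 := (NNRat.cast_le (K := ℝ)).2 h1
      push_cast at h6
      exact h6
    rw [hScard] at h4
    refine h4.trans ?_
    gcongr
  have h5 : (0 : ℝ) < ((2 * h + 1 : ℕ) : ℝ) := by positivity
  rw [card_box, ← hn]
  rw [div_le_iff₀ (by positivity)] at h3
  calc (((box E h).filter (fun w => MvPolynomial.eval (fun e => (w e : ℚ)) P = 0)).card : ℝ) ≤ Z.card := by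
        exact_mod_cast h2
    _ ≤ _ := h3
    _ = _ := by
        push_cast
        ring

/-- the input `ℓ w` -/
noncomputable def sub (ℓ : E → MvPolynomial E ℚ) (w : E → ℤ) : E → ℚ :=
  fun e => MvPolynomial.eval (fun e' => (w e' : ℚ)) (ℓ e)

/-- the test polynomial in terms of `w` -/
noncomputable def poly [Fintype E] (ℓ : E → MvPolynomial E ℚ) (G : R → (E → ℚ) × ℚ) (f : MvPolynomial R ℚ) :
    MvPolynomial E ℚ :=
  MvPolynomial.bind₁ (fun r => ∑ e, MvPolynomial.C ((G r).1 e) * ℓ e + MvPolynomial.C (G r).2) f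

theorem eval_poly [Fintype E] (ℓ : E → MvPolynomial E ℚ) (G : R → (E → ℚ) × ℚ) (f : MvPolynomial R ℚ) (w : E → ℚ) :
    MvPolynomial.eval w (poly ℓ G f) =
      MvPolynomial.eval (fun r => ev (G r) (fun e => MvPolynomial.eval w (ℓ e))) f := by
  unfold poly
  change MvPolynomial.eval₂Hom (RingHom.id ℚ) w (MvPolynomial.bind₁ _ f) = _
  rw [MvPolynomial.eval₂Hom_bind₁]
  refine congrArg (fun g => MvPolynomial.eval g f) (funext fun r => ?_)
  change MvPolynomial.eval w (∑ e, MvPolynomial.C ((G r).1 e) * ℓ e + MvPolynomial.C (G r).2) = _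
  unfold ev
  simp only [map_add, map_sum, map_mul, MvPolynomial.eval_C]

theorem degree_poly [Fintype E] (ℓ : E → MvPolynomial E ℚ) (hℓ : ∀ e, (ℓ e).totalDegree ≤ 1) (G : R → (E → ℚ) × ℚ)
    (f : MvPolynomial R ℚ) : (poly ℓ G f).totalDegree ≤ f.totalDegree := by
  unfold poly
  rw [MvPolynomial.bind₁, MvPolynomial.aeval_def, MvPolynomial.eval₂_eq]
  refine MvPolynomial.totalDegree_finsetSum_le fun m hm => ?_
  refine (MvPolynomial.totalDegree_mul _ _).trans ?_
  rw [MvPolynomial.algebraMap_eq, MvPolynomial.totalDegree_C, zero_add]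
  refine (MvPolynomial.totalDegree_finsetProd _ _).trans ?_
  refine le_trans ?_ (MvPolynomial.le_totalDegree hm)
  refine Finset.sum_le_sum fun i _ => ?_
  refine (MvPolynomial.totalDegree_pow _ _).trans ?_
  calc m i * _ ≤ m i * 1 := by
        refine Nat.mul_le_mul_left _ ?_
        refine (MvPolynomial.totalDegree_add _ _).trans (max_le ?_ (by rw [MvPolynomial.totalDegree_C]; omega))
        refine MvPolynomial.totalDegree_finsetSum_le fun e _ => ?_
        refine (MvPolynomial.totalDegree_mul _ _).trans ?_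
        rw [MvPolynomial.totalDegree_C, zero_add]
        exact hℓ e
    _ = m i := mul_one _

open Classical in
/-- on most inputs the program follows the generic path -/
theorem run_bad [Fintype R] [Fintype E] [DecidableEq E] (ℓ : E → MvPolynomial E ℚ)
    (hℓ : ∀ e, (ℓ e).totalDegree ≤ 1) (h d : ℕ) : ∀ (p : Prog R E) (G : R → (E → ℚ) × ℚ), p.degree ≤ d → ¬ Hit ℓ p G →
    (((box E h).filter (fun w => p.run (sub ℓ w) (fun r => ev (G r) (sub ℓ w)) ≠ gen p G)).card : ℝ) ≤
      p.tests * (d * ((box E h).card / (2 * h + 1))) := by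
  have hB : (0 : ℝ) ≤ d * ((box E h).card / (2 * h + 1)) := by positivity
  have hup : ∀ (G : R → (E → ℚ) × ℚ) (r : R) (a : (E → ℚ) × ℚ) (w : E → ℚ),
      (fun s => ev (Function.update G r a s) w) = Function.update (fun s => ev (G s) w) r (ev a w) := by
    intro G r a w
    funext s
    by_cases hs : s = r
    · subst hs
      simp
    · simp [Function.update_of_ne hs]
  intro p
  induction p with
  | answer b =>
    intro G _ _
    simp [Prog.run, gen, Prog.tests]
  | load r c u p ih =>
    intro G hd hH
    refine le_trans (le_of_eq ?_) (ih (Function.update G r (c, u)) hd hH)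
    congr 2
    refine Finset.filter_congr fun w _ => ?_
    rw [hup]
    rfl
  | set r c u p ih =>
    intro G hd hH
    refine le_trans (le_of_eq ?_) (ih (Function.update G r (comb c u G)) hd hH)
    congr 2
    refine Finset.filter_congr fun w _ => ?_
    rw [hup, ev_comb]
    rfl
  | test f p q ihp ihq =>
    intro G hd hH
    simp only [Prog.degree, max_le_iff] at hd
    obtain ⟨hdf, hdp, hdq⟩ := hd
    by_cases hV : Van f G
    · have hH' : ¬ Hit ℓ p G := by
        intro h1
        apply hH
        simp only [Hit, if_pos hV]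
        exact h1
      have hT : (p.tests : ℝ) ≤ (Prog.test f p q : Prog R E).tests := by
        exact_mod_cast (le_max_left _ _).trans (Nat.le_succ _)
      refine le_trans (le_trans (le_of_eq ?_) (ihp G hdp hH')) (mul_le_mul_of_nonneg_right hT hB)
      congr 2
      refine Finset.filter_congr fun w _ => ?_
      simp only [Prog.run, gen, if_pos hV]
      rw [if_pos]
      exact hV _
    · have hH' : ¬ VanOn ℓ f G ∧ ¬ Hit ℓ q G := by
        have : ¬ (VanOn ℓ f G ∨ Hit ℓ q G) := by
          intro h1
          apply hH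
          simp only [Hit, if_neg hV]
          exact h1
        exact not_or.1 this
      have hT : (q.tests : ℝ) + 1 ≤ (Prog.test f p q : Prog R E).tests := by
        have : q.tests + 1 ≤ max p.tests q.tests + 1 := Nat.succ_le_succ (le_max_right _ _)
        exact_mod_cast this
      have hP0 : poly ℓ G f ≠ 0 := by
        intro h0
        apply hH'.1
        intro w
        rw [← eval_poly, h0, map_zero]
      have h1 := sz (poly ℓ G f) hP0 h
      have h2 : ((box E h).filter (fun w => (Prog.test f p q).run (sub ℓ w) (fun r => ev (G r) (sub ℓ w)) ≠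
          gen (Prog.test f p q) G)) ⊆
          ((box E h).filter (fun w => MvPolynomial.eval (fun e => (w e : ℚ)) (poly ℓ G f) = 0)) ∪
          ((box E h).filter (fun w => q.run (sub ℓ w) (fun r => ev (G r) (sub ℓ w)) ≠ gen q G)) := by
        intro w hw
        rw [Finset.mem_filter] at hw
        rw [Finset.mem_union, Finset.mem_filter, Finset.mem_filter]
        by_cases h3 : MvPolynomial.eval (fun e => (w e : ℚ)) (poly ℓ G f) = 0
        · exact Or.inl ⟨hw.1, h3⟩
        · right
          refine ⟨hw.1, ?_⟩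
          have h4 := hw.2
          simp only [Prog.run, gen, if_neg hV] at h4
          rw [if_neg] at h4
          · exact h4
          · rw [eval_poly] at h3
            exact h3
      calc _ ≤ (((((box E h).filter (fun w => MvPolynomial.eval (fun e => (w e : ℚ)) (poly ℓ G f) = 0)) ∪
          ((box E h).filter (fun w => q.run (sub ℓ w) (fun r => ev (G r) (sub ℓ w)) ≠ gen q G))).card : ℕ) : ℝ) := by
            exact_mod_cast Finset.card_le_card h2
        _ ≤ (((box E h).filter (fun w => MvPolynomial.eval (fun e => (w e : ℚ)) (poly ℓ G f) = 0)).card : ℝ) +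
          (((box E h).filter (fun w => q.run (sub ℓ w) (fun r => ev (G r) (sub ℓ w)) ≠ gen q G)).card : ℝ) := by
            exact_mod_cast Finset.card_union_le _ _
        _ ≤ d * ((box E h).card / (2 * h + 1)) + q.tests * (d * ((box E h).card / (2 * h + 1))) := by
            refine add_le_add (h1.trans ?_) (ihq G hdq hH'.2)
            have h5 : ((poly ℓ G f).totalDegree : ℝ) ≤ d := by
              exact_mod_cast (degree_poly ℓ hℓ G f).trans hdf
            exact mul_le_mul_of_nonneg_right h5 (by positivity)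
        _ = (q.tests + 1) * (d * ((box E h).card / (2 * h + 1))) := by ring
        _ ≤ _ := mul_le_mul_of_nonneg_right hT hB

end generic

/-! ### Planted triangles -/

/-- the substitution which plants a triangle of weight zero at `t` -/
noncomputable def plant {n : ℕ} (t : Tri n) : Edge n → MvPolynomial (Edge n) ℚ := fun e =>
  if e = (2, t.1, t.2.2) then - MvPolynomial.X (0, t.1, t.2.1) - MvPolynomial.X (1, t.2.1, t.2.2)
  else MvPolynomial.X e

theorem degree_plant {n : ℕ} (t : Tri n) (e : Edge n) : (plant t e).totalDegree ≤ 1 := by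
  unfold plant
  split_ifs
  · refine (MvPolynomial.totalDegree_sub _ _).trans (max_le ?_ ?_)
    · rw [MvPolynomial.totalDegree_neg, MvPolynomial.totalDegree_X]
    · rw [MvPolynomial.totalDegree_X]
  · rw [MvPolynomial.totalDegree_X]

theorem tau_sum {n : ℕ} (t : Tri n) (w : Edge n → ℚ) :
    ∑ e, tau t e * w e = w (0, t.1, t.2.1) + w (1, t.2.1, t.2.2) + w (2, t.1, t.2.2) := by
  classical
  have h : ∀ e : Edge n, tau t e * w e = (if e = (0, t.1, t.2.1) then w e else 0) +
      (if e = (1, t.2.1, t.2.2) then w e else 0) + (if e = (2, t.1, t.2.2) then w e else 0) := by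
    rintro ⟨a, x, y⟩
    unfold tau
    fin_cases a <;> simp
  simp only [h, Finset.sum_add_distrib, Finset.sum_ite_eq', Finset.mem_univ, if_true]

/-- a test which sees the triangle `t` involves its linear form -/
theorem mem_of_vanOn {R : Type} {n : ℕ} (V : Submodule ℚ (Edge n → ℚ)) (G : R → (Edge n → ℚ) × ℚ)
    (hG : ∀ r, (G r).1 ∈ V) (f : MvPolynomial R ℚ) (t : Tri n) (h : VanOn (plant t) f G) (hV : ¬ Van f G) :
    tau t ∈ V := by
  classical
  by_contra hmem
  apply hV
  obtain ⟨φ, hφ, hker⟩ := Submodule.exists_le_ker_of_notMem hmem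
  set x : Edge n → ℚ := fun e => φ (Pi.single e 1) / φ (tau t) with hx
  have hsum : ∀ a : Edge n → ℚ, ∑ e, a e * x e = φ a / φ (tau t) := by
    intro a
    have h1 : a = ∑ e, a e • (Pi.single e (1 : ℚ) : Edge n → ℚ) := by
      funext e
      simp [Finset.sum_apply, Pi.single_apply]
    conv_rhs => rw [h1, map_sum]
    rw [Finset.sum_div]
    refine Finset.sum_congr rfl fun e _ => ?_
    rw [map_smul, smul_eq_mul, hx]
    ring
  intro w
  set c : ℚ := ∑ e, tau t e * w e with hc
  set w' : Edge n → ℚ := fun e => w e - c * x e with hw'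
  have hlin : ∀ a : Edge n → ℚ, ∑ e, a e * w' e = ∑ e, a e * w e - c * (φ a / φ (tau t)) := by
    intro a
    rw [← hsum, Finset.mul_sum, ← Finset.sum_sub_distrib]
    refine Finset.sum_congr rfl fun e _ => ?_
    rw [hw']
    ring
  have ht0 : w' (0, t.1, t.2.1) + w' (1, t.2.1, t.2.2) + w' (2, t.1, t.2.2) = 0 := by
    rw [← tau_sum, hlin, div_self hφ, ← hc]
    ring
  have hpl : (fun e => MvPolynomial.eval w' (plant t e)) = w' := by
    funext e
    unfold plant
    split_ifs with he
    · rw [map_sub, map_neg, MvPolynomial.eval_X, MvPolynomial.eval_X, he]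
      linarith
    · rw [MvPolynomial.eval_X]
  have h1 := h w'
  rw [hpl] at h1
  rw [← h1]
  refine congrArg (fun g => MvPolynomial.eval g f) (funext fun r => ?_)
  unfold ev
  rw [hlin]
  have h2 : φ (G r).1 = 0 := hker (hG r)
  rw [h2]
  ring

open Classical in
/-- the number of the triangles which are seen on the generic path -/
theorem card_hit {R : Type} [Fintype R] {n : ℕ} (S : ℕ) (hS : S = Fintype.card R) (hS1 : 1 ≤ S) (F : ℝ)
    (hF : ∀ V : Submodule ℚ (Edge n → ℚ), Module.finrank ℚ V ≤ 2 * S →
      (((univ : Finset (Tri n)).filter (fun t => tau t ∈ V)).card : ℝ) ≤ F) :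
    ∀ (p : Prog R (Edge n)) (G : R → (Edge n → ℚ) × ℚ) (V : Submodule ℚ (Edge n → ℚ)) (m k : ℕ),
      (∀ r, (G r).1 ∈ V) → Module.finrank ℚ V + k ≤ 2 * S → p.loads ≤ k + m * S →
      (((univ : Finset (Tri n)).filter (fun t => Hit (plant t) p G ∨ tau t ∈ V)).card : ℝ) ≤ (m + 1) * F := by
  have hF0 : 0 ≤ F := le_trans (Nat.cast_nonneg _) (hF ⊥ (by rw [finrank_bot]; omega))
  intro p
  induction p with
  | answer b =>
    intro G V m k hG hV _
    have h1 : (univ : Finset (Tri n)).filter (fun t => Hit (plant t) (Prog.answer b : Prog R (Edge n)) G ∨ tau t ∈ V) =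
        (univ : Finset (Tri n)).filter (fun t => tau t ∈ V) := by
      refine Finset.filter_congr fun t _ => ?_
      simp [Hit]
    rw [h1]
    refine (hF V (by omega)).trans ?_
    nlinarith [(Nat.cast_nonneg m : (0 : ℝ) ≤ m)]
  | load r c u p ih =>
    intro G V m k hG hV hL
    simp only [Prog.loads] at hL
    have hup : ∀ (W : Submodule ℚ (Edge n → ℚ)), c ∈ W → (∀ r, (G r).1 ∈ W) →
        ∀ s, (Function.update G r (c, u) s).1 ∈ W := by
      intro W hc hW s
      by_cases hs : s = r
      · subst hs
        simpa using hc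
      · rw [Function.update_of_ne hs]
        exact hW s
    rcases Nat.eq_zero_or_pos k with hk | hk
    · -- a new group of transfers
      subst hk
      obtain ⟨m', rfl⟩ : ∃ m', m = m' + 1 := by
        refine ⟨m - 1, ?_⟩
        rcases Nat.eq_zero_or_pos m with h0 | h0
        · subst h0
          omega
        · omega
      set G' := Function.update G r (c, u) with hG'
      set W : Submodule ℚ (Edge n → ℚ) := Submodule.span ℚ (Set.range fun s => (G' s).1) with hW
      have hWd : Module.finrank ℚ W ≤ S := by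
        rw [hS]
        exact finrank_range_le_card _
      have h1 := ih G' W m' S (fun s => Submodule.subset_span ⟨s, rfl⟩) (by omega) (by
        have : (m' + 1) * S = m' * S + S := by ring
        omega)
      have h2 := hF V (by omega)
      have h3 : (univ : Finset (Tri n)).filter (fun t => Hit (plant t) (Prog.load r c u p) G ∨ tau t ∈ V) ⊆
          (univ : Finset (Tri n)).filter (fun t => Hit (plant t) p G' ∨ tau t ∈ W) ∪
            (univ : Finset (Tri n)).filter (fun t => tau t ∈ V) := by
        intro t ht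
        rw [Finset.mem_filter] at ht
        rw [Finset.mem_union, Finset.mem_filter, Finset.mem_filter]
        rcases ht.2 with h | h
        · exact Or.inl ⟨Finset.mem_univ _, Or.inl h⟩
        · exact Or.inr ⟨Finset.mem_univ _, h⟩
      calc _ ≤ ((((univ : Finset (Tri n)).filter (fun t => Hit (plant t) p G' ∨ tau t ∈ W) ∪
            (univ : Finset (Tri n)).filter (fun t => tau t ∈ V)).card : ℕ) : ℝ) := by
            exact_mod_cast Finset.card_le_card h3
        _ ≤ (((univ : Finset (Tri n)).filter (fun t => Hit (plant t) p G' ∨ tau t ∈ W)).card : ℝ) +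
            (((univ : Finset (Tri n)).filter (fun t => tau t ∈ V)).card : ℝ) := by
            exact_mod_cast Finset.card_union_le _ _
        _ ≤ (m' + 1) * F + F := add_le_add h1 h2
        _ = _ := by push_cast; ring
    · set G' := Function.update G r (c, u) with hG'
      set W : Submodule ℚ (Edge n → ℚ) := V ⊔ Submodule.span ℚ {c} with hW
      have hWd : Module.finrank ℚ W ≤ Module.finrank ℚ V + 1 := by
        refine (Submodule.finrank_add_le_finrank_add_finrank V (Submodule.span ℚ {c})).trans ?_
        have h9 : Module.finrank ℚ (Submodule.span ℚ ({c} : Set (Edge n → ℚ))) ≤ 1 := by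
          have h10 := finrank_span_le_card (R := ℚ) ({c} : Set (Edge n → ℚ))
          rwa [Set.toFinset_singleton, Finset.card_singleton] at h10
        omega
      have h1 := ih G' W m (k - 1) (hup W (Submodule.mem_sup_right (Submodule.mem_span_singleton_self c))
        (fun s => Submodule.mem_sup_left (hG s))) (by omega) (by omega)
      refine le_trans ?_ h1
      have h3 : (univ : Finset (Tri n)).filter (fun t => Hit (plant t) (Prog.load r c u p) G ∨ tau t ∈ V) ⊆
          (univ : Finset (Tri n)).filter (fun t => Hit (plant t) p G' ∨ tau t ∈ W) := by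
        intro t ht
        rw [Finset.mem_filter] at ht ⊢
        exact ⟨ht.1, ht.2.imp id fun h => Submodule.mem_sup_left h⟩
      exact_mod_cast Finset.card_le_card h3
  | set r c u p ih =>
    intro G V m k hG hV hL
    refine ih (Function.update G r (comb c u G)) V m k (fun s => ?_) hV hL
    by_cases hs : s = r
    · subst hs
      rw [Function.update_self]
      unfold comb
      rw [Prod.fst_add, Prod.fst_sum, add_zero]
      exact Submodule.sum_mem _ fun i _ => Submodule.smul_mem _ _ (hG i)
    · rw [Function.update_of_ne hs]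
      exact hG s
  | test f p q ihp ihq =>
    intro G V m k hG hV hL
    simp only [Prog.loads] at hL
    by_cases hvan : Van f G
    · refine le_trans ?_ (ihp G V m k hG hV (by omega))
      have h3 : (univ : Finset (Tri n)).filter (fun t => Hit (plant t) (Prog.test f p q) G ∨ tau t ∈ V) ⊆
          (univ : Finset (Tri n)).filter (fun t => Hit (plant t) p G ∨ tau t ∈ V) := by
        intro t ht
        rw [Finset.mem_filter] at ht ⊢
        refine ⟨ht.1, ht.2.imp (fun h => ?_) id⟩
        simpa only [Hit, if_pos hvan] using h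
      exact_mod_cast Finset.card_le_card h3
    · refine le_trans ?_ (ihq G V m k hG hV (by omega))
      have h3 : (univ : Finset (Tri n)).filter (fun t => Hit (plant t) (Prog.test f p q) G ∨ tau t ∈ V) ⊆
          (univ : Finset (Tri n)).filter (fun t => Hit (plant t) q G ∨ tau t ∈ V) := by
        intro t ht
        rw [Finset.mem_filter] at ht ⊢
        refine ⟨ht.1, ?_⟩
        rcases ht.2 with h | h
        · have h4 : VanOn (plant t) f G ∨ Hit (plant t) q G := by
            simpa only [Hit, if_neg hvan] using h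
          rcases h4 with h5 | h5
          · exact Or.inr (mem_of_vanOn V G hG f t h5 hvan)
          · exact Or.inl h5
        · exact Or.inr h
      exact_mod_cast Finset.card_le_card h3

/-- the registers are empty at the beginning -/
def G0 (R E : Type) : R → (E → ℚ) × ℚ := fun _ => (0, 0)

theorem ev_G0 {R E : Type} [Fintype E] (w : E → ℚ) : (fun r => ev (G0 R E r) w) = fun _ => 0 := by
  funext r
  simp [ev, G0]

theorem sub_plant {n : ℕ} (t : Tri n) (w : Edge n → ℤ) : sub (plant t) w = fun e => (plantZ t w e : ℚ) := by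
  funext e
  unfold sub plant plantZ
  split_ifs with he
  · rw [map_sub, map_neg, MvPolynomial.eval_X, MvPolynomial.eval_X]
    push_cast
    ring
  · rw [MvPolynomial.eval_X]

theorem sub_X {E : Type} (w : E → ℤ) : sub (fun e => MvPolynomial.X e) w = fun e => (w e : ℚ) := by
  funext e
  unfold sub
  rw [MvPolynomial.eval_X]

theorem plantZ_zero {n : ℕ} (t : Tri n) (w : Edge n → ℤ) : ZeroTriangle (plantZ t w) := by
  refine ⟨t.1, t.2.1, t.2.2, ?_⟩
  unfold plantZ
  rw [if_neg (by simp), if_neg (by simp), if_pos rfl]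
  ring

theorem plantZ_le {n : ℕ} (t : Tri n) (w : Edge n → ℤ) (h : ℕ) (hw : w ∈ box (Edge n) h) (e : Edge n) :
    |plantZ t w e| ≤ 2 * h := by
  have h1 : ∀ e, |w e| ≤ (h : ℤ) := fun e => by
    have := Finset.mem_Icc.1 (Fintype.mem_piFinset.1 hw e)
    exact abs_le.2 this
  unfold plantZ
  split_ifs
  · have h2 := abs_le.1 (h1 (0, t.1, t.2.1))
    have h3 := abs_le.1 (h1 (1, t.2.1, t.2.2))
    rw [abs_le]
    constructor <;> linarith
  · have := h1 e
    have h2 : (0 : ℤ) ≤ h := Int.natCast_nonneg h
    linarith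

open Classical in
/-- few random instances have a triangle of weight zero -/
theorem card_zero {n : ℕ} (h : ℕ) :
    (((box (Edge n) h).filter (fun w => ZeroTriangle w)).card : ℝ) ≤ n ^ 3 * ((box (Edge n) h).card / (2 * h + 1)) := by
  have h1 : (box (Edge n) h).filter (fun w => ZeroTriangle w) ⊆ (univ : Finset (Tri n)).biUnion fun t =>
      (box (Edge n) h).filter (fun w => MvPolynomial.eval (fun e => (w e : ℚ))
        (MvPolynomial.X (0, t.1, t.2.1) + MvPolynomial.X (1, t.2.1, t.2.2) + MvPolynomial.X (2, t.1, t.2.2) :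
          MvPolynomial (Edge n) ℚ) = 0) := by
    intro w hw
    obtain ⟨hw1, i, j, k, hz⟩ := Finset.mem_filter.1 hw
    rw [Finset.mem_biUnion]
    refine ⟨(i, j, k), Finset.mem_univ _, Finset.mem_filter.2 ⟨hw1, ?_⟩⟩
    simp only [map_add, MvPolynomial.eval_X]
    exact_mod_cast hz
  have h2 : ∀ t : Tri n, (((box (Edge n) h).filter (fun w => MvPolynomial.eval (fun e => (w e : ℚ))
        (MvPolynomial.X (0, t.1, t.2.1) + MvPolynomial.X (1, t.2.1, t.2.2) + MvPolynomial.X (2, t.1, t.2.2) :
          MvPolynomial (Edge n) ℚ) = 0)).card : ℝ) ≤ (box (Edge n) h).card / (2 * h + 1) := by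
    intro t
    refine (sz _ ?_ h).trans ?_
    · intro h0
      have h3 := congrArg (MvPolynomial.eval (fun _ => (1 : ℚ))) h0
      simp only [map_add, MvPolynomial.eval_X, map_zero] at h3
      norm_num at h3
    · have h3 : ((MvPolynomial.X (0, t.1, t.2.1) + MvPolynomial.X (1, t.2.1, t.2.2) + MvPolynomial.X (2, t.1, t.2.2) :
          MvPolynomial (Edge n) ℚ).totalDegree : ℝ) ≤ 1 := by
        have : (MvPolynomial.X (0, t.1, t.2.1) + MvPolynomial.X (1, t.2.1, t.2.2) + MvPolynomial.X (2, t.1, t.2.2) :
          MvPolynomial (Edge n) ℚ).totalDegree ≤ 1 := by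
          refine (MvPolynomial.totalDegree_add _ _).trans (max_le ((MvPolynomial.totalDegree_add _ _).trans
            (max_le ?_ ?_)) ?_) <;> rw [MvPolynomial.totalDegree_X]
        exact_mod_cast this
      have h4 : (0 : ℝ) ≤ (box (Edge n) h).card / (2 * h + 1) := by positivity
      nlinarith
  calc _ ≤ ((((univ : Finset (Tri n)).biUnion fun t =>
      (box (Edge n) h).filter (fun w => MvPolynomial.eval (fun e => (w e : ℚ))
        (MvPolynomial.X (0, t.1, t.2.1) + MvPolynomial.X (1, t.2.1, t.2.2) + MvPolynomial.X (2, t.1, t.2.2) :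
          MvPolynomial (Edge n) ℚ) = 0)).card : ℕ) : ℝ) := by exact_mod_cast Finset.card_le_card h1
    _ ≤ ∑ t : Tri n, (((box (Edge n) h).filter (fun w => MvPolynomial.eval (fun e => (w e : ℚ))
        (MvPolynomial.X (0, t.1, t.2.1) + MvPolynomial.X (1, t.2.1, t.2.2) + MvPolynomial.X (2, t.1, t.2.2) :
          MvPolynomial (Edge n) ℚ) = 0)).card : ℝ) := by exact_mod_cast Finset.card_biUnion_le
    _ ≤ ∑ t : Tri n, (box (Edge n) h).card / (2 * (h : ℝ) + 1) := Finset.sum_le_sum fun t _ => h2 t
    _ = _ := by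
        rw [Finset.sum_const, nsmul_eq_mul, Finset.card_univ]
        simp only [Fintype.card_prod, Fintype.card_fin]
        push_cast
        ring

theorem yes_nonneg {R : Type} [Fintype R] {n : ℕ} (p : Prog R (Edge n)) (h : ℕ)
    (g : (Edge n → ℤ) → (Edge n → ℤ)) : 0 ≤ yes p h g := Nat.cast_nonneg _

theorem yes_le {R : Type} [Fintype R] {n : ℕ} (p : Prog R (Edge n)) (h : ℕ)
    (g : (Edge n → ℤ) → (Edge n → ℤ)) : yes p h g ≤ (box (Edge n) h).card := by
  unfold yes
  exact_mod_cast Finset.card_filter_le _ _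

open Classical in
theorem yes_plant {R : Type} [Fintype R] {n : ℕ} (p : Prog R (Edge n)) (h d : ℕ) (hd : p.degree ≤ d) (t : Tri n)
    (hh : ¬ Hit (plant t) p (G0 R (Edge n))) (hg : gen p (G0 R (Edge n)) = false) :
    yes p h (plantZ t) ≤ p.tests * (d * ((box (Edge n) h).card / (2 * h + 1))) := by
  refine le_trans ?_ (run_bad (plant t) (degree_plant t) h d p (G0 R (Edge n)) hd hh)
  have h2 : (box (Edge n) h).filter (fun w => p.run (fun e => (plantZ t w e : ℚ)) (fun _ => 0) = true) ⊆
      (box (Edge n) h).filter (fun w => p.run (sub (plant t) w)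
        (fun r => ev (G0 R (Edge n) r) (sub (plant t) w)) ≠ gen p (G0 R (Edge n))) := by
    intro w hw
    rw [Finset.mem_filter] at hw ⊢
    refine ⟨hw.1, ?_⟩
    rw [ev_G0, sub_plant, hw.2, hg]
    decide
  unfold yes
  exact_mod_cast Finset.card_le_card h2

open Classical in
theorem not_hit_X {R : Type} [Fintype R] {n : ℕ} : ∀ (q : Prog R (Edge n)) (G : R → (Edge n → ℚ) × ℚ),
    ¬ Hit (fun e => MvPolynomial.X e) q G := by
  intro q
  induction q with
  | answer b => intro G hh; exact hh
  | load r c u q ih => intro G hh; exact ih _ hh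
  | set r c u q ih => intro G hh; exact ih _ hh
  | test f q1 q2 ih1 ih2 =>
    intro G hh
    by_cases hv : Van f G
    · simp only [Hit, if_pos hv] at hh
      exact ih1 _ hh
    · simp only [Hit, if_neg hv] at hh
      rcases hh with h3 | h3
      · apply hv
        intro w
        have h4 := h3 w
        simpa only [MvPolynomial.eval_X] using h4
      · exact ih2 _ h3

open Classical in
theorem yes_random {R : Type} [Fintype R] {n : ℕ} (p : Prog R (Edge n)) (h d : ℕ) (hd : p.degree ≤ d)
    (hg : gen p (G0 R (Edge n)) = true) :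
    ((box (Edge n) h).card : ℝ) ≤ yes p h id + p.tests * (d * ((box (Edge n) h).card / (2 * h + 1))) := by
  have h1 := run_bad (fun e => MvPolynomial.X e) (fun e => by rw [MvPolynomial.totalDegree_X]) h d p
    (G0 R (Edge n)) hd (not_hit_X _ _)
  have h3 : box (Edge n) h ⊆ (box (Edge n) h).filter (fun w => p.run (fun e => ((id w : Edge n → ℤ) e : ℚ)) (fun _ => 0) = true) ∪
      (box (Edge n) h).filter (fun w => p.run (sub (fun e => MvPolynomial.X e) w)
          (fun r => ev (G0 R (Edge n) r) (sub (fun e => MvPolynomial.X e) w)) ≠ gen p (G0 R (Edge n))) := by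
    intro w hw
    rw [Finset.mem_union, Finset.mem_filter, Finset.mem_filter]
    by_cases h4 : p.run (fun e => ((id w : Edge n → ℤ) e : ℚ)) (fun _ => 0) = true
    · exact Or.inl ⟨hw, h4⟩
    · right
      refine ⟨hw, ?_⟩
      rw [ev_G0, sub_X, hg]
      exact h4
  have h5 : ((box (Edge n) h).card : ℝ) ≤ ((((box (Edge n) h).filter
      (fun w => p.run (fun e => ((id w : Edge n → ℤ) e : ℚ)) (fun _ => 0) = true) ∪
      (box (Edge n) h).filter (fun w => p.run (sub (fun e => MvPolynomial.X e) w)
          (fun r => ev (G0 R (Edge n) r) (sub (fun e => MvPolynomial.X e) w)) ≠ gen p (G0 R (Edge n)))).card : ℕ) : ℝ) := by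
    exact_mod_cast Finset.card_le_card h3
  refine h5.trans (le_trans (b := yes p h id + (((box (Edge n) h).filter
      (fun w => p.run (sub (fun e => MvPolynomial.X e) w)
          (fun r => ev (G0 R (Edge n) r) (sub (fun e => MvPolynomial.X e) w)) ≠ gen p (G0 R (Edge n)))).card : ℝ)) ?_
          (add_le_add le_rfl h1))
  unfold yes
  exact_mod_cast Finset.card_union_le _ _

open Classical in
/-- a program behaves in the same way for random instances and for instances with a planted triangle -/
theorem det_avg {R : Type} [Fintype R] {n : ℕ} (p : Prog R (Edge n)) (h d : ℕ) (hd : p.degree ≤ d) (H : ℝ)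
    (hH : (((univ : Finset (Tri n)).filter (fun t => Hit (plant t) p (G0 R (Edge n)))).card : ℝ) ≤ H) :
    ∑ t : Tri n, yes p h (plantZ t) ≤ n ^ 3 * yes p h id + H * (box (Edge n) h).card +
      n ^ 3 * (p.tests * (d * ((box (Edge n) h).card / (2 * h + 1)))) := by
  obtain ⟨N, hN⟩ : ∃ N : ℝ, N = ((box (Edge n) h).card : ℝ) := ⟨_, rfl⟩
  have hN0 : 0 ≤ N := by rw [hN]; exact Nat.cast_nonneg _
  obtain ⟨B, hB⟩ : ∃ B : ℝ, B = p.tests * (d * (N / (2 * h + 1))) := ⟨_, rfl⟩
  have hB0 : 0 ≤ B := by rw [hB]; positivity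
  have hcard : ((univ : Finset (Tri n)).card : ℝ) = n ^ 3 := by
    rw [Finset.card_univ]
    simp only [Fintype.card_prod, Fintype.card_fin]
    push_cast
    ring
  have hH0 : 0 ≤ H := le_trans (Nat.cast_nonneg _) hH
  rw [← hN, ← hB]
  rcases hg : gen p (G0 R (Edge n)) with _ | _
  · -- the generic answer is no
    have h1 : ∀ t : Tri n, yes p h (plantZ t) ≤ (if Hit (plant t) p (G0 R (Edge n)) then N else 0) + B := by
      intro t
      split_ifs with hh
      · have := yes_le p h (plantZ t)
        rw [← hN] at this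
        linarith
      · rw [zero_add, hB, hN]
        exact yes_plant p h d hd t hh hg
    calc _ ≤ ∑ t : Tri n, ((if Hit (plant t) p (G0 R (Edge n)) then N else 0) + B) :=
          Finset.sum_le_sum fun t _ => h1 t
      _ = (((univ : Finset (Tri n)).filter (fun t => Hit (plant t) p (G0 R (Edge n)))).card : ℝ) * N + n ^ 3 * B := by
          rw [Finset.sum_add_distrib, Finset.sum_const, nsmul_eq_mul, hcard, ← Finset.sum_filter, Finset.sum_const,
            nsmul_eq_mul]
      _ ≤ H * N + n ^ 3 * B := by
          have := mul_le_mul_of_nonneg_right hH hN0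
          linarith
      _ ≤ _ := by
          have : (0 : ℝ) ≤ n ^ 3 * yes p h id := mul_nonneg (by positivity) (yes_nonneg _ _ _)
          linarith
  · -- the generic answer is yes
    have h2 : N ≤ yes p h id + B := by
      rw [hB, hN]
      exact yes_random p h d hd hg
    calc _ ≤ ∑ t : Tri n, N := Finset.sum_le_sum fun t _ => by rw [hN]; exact yes_le p h _
      _ = n ^ 3 * N := by rw [Finset.sum_const, nsmul_eq_mul, hcard]
      _ ≤ n ^ 3 * (yes p h id + B) := mul_le_mul_of_nonneg_left h2 (by positivity)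
      _ ≤ _ := by
          have : 0 ≤ H * N := mul_nonneg hH0 hN0
          linarith

open Classical in
theorem hit_le {n : ℕ} (Q : ℕ) (R : Type) [Fintype R] [Nonempty R] (p : Prog R (Edge n)) (hp : p.loads ≤ Q) :
    (((univ : Finset (Tri n)).filter (fun t => Hit (plant t) p (G0 R (Edge n)))).card : ℝ) ≤
      ((Q / Fintype.card R : ℕ) + 1 : ℝ) * √((2 * Fintype.card R : ℝ) ^ 3) := by
  obtain ⟨S, hS⟩ : ∃ S : ℕ, S = Fintype.card R := ⟨_, rfl⟩
  rw [← hS]
  have hS1 : 1 ≤ S := by rw [hS]; exact Fintype.card_pos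
  have hFV : ∀ V : Submodule ℚ (Edge n → ℚ), Module.finrank ℚ V ≤ 2 * S →
      (((univ : Finset (Tri n)).filter (fun t => tau t ∈ V)).card : ℝ) ≤ √((2 * S : ℝ) ^ 3) := by
    intro V hV
    refine Real.le_sqrt_of_sq_le ?_
    have h1 := (card_tri V).trans (Nat.pow_le_pow_left hV 3)
    exact_mod_cast h1
  have h1 := card_hit (n := n) S hS hS1 _ hFV p (G0 R (Edge n)) ⊥ (Q / S) S (fun r => by simp [G0]) (by
    rw [finrank_bot]; omega) (by
      refine hp.trans ?_
      have h2 := Nat.lt_div_mul_add (a := Q) hS1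
      omega)
  refine le_trans ?_ h1
  have h2 : (univ : Finset (Tri n)).filter (fun t => Hit (plant t) p (G0 R (Edge n))) ⊆
      (univ : Finset (Tri n)).filter (fun t => Hit (plant t) p (G0 R (Edge n)) ∨
        tau t ∈ (⊥ : Submodule ℚ (Edge n → ℚ))) := by
    intro t ht
    rw [Finset.mem_filter] at ht ⊢
    exact ⟨ht.1, Or.inl ht.2⟩
  exact_mod_cast Finset.card_le_card h2

/-- the bound on the average -/
theorem average (n h Q T d : ℕ) (hn : 1 ≤ n) (R : Type) [Fintype R] [Nonempty R] (p : Prog R (Edge n))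
    (hQ : p.loads ≤ Q) (hT : p.tests ≤ T) (hd : p.degree ≤ d) :
    plantedRate p h ≤ randomRate p h +
      ((Q / Fintype.card R : ℕ) + 1 : ℝ) * √((2 * Fintype.card R : ℝ) ^ 3) / n ^ 3 + T * d / (2 * h + 1) := by
  have h1 := det_avg p h d hd _ (hit_le Q R p hQ)
  obtain ⟨N, hN⟩ : ∃ N : ℝ, N = ((box (Edge n) h).card : ℝ) := ⟨_, rfl⟩
  have hNpos : 0 < N := by
    rw [hN, card_box]
    positivity
  have hn3 : (0 : ℝ) < (n : ℝ) ^ 3 := by
    have : (0 : ℝ) < n := by exact_mod_cast hn
    positivity
  have hpos : (0 : ℝ) < 2 * h + 1 := by positivity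
  have hTr : (p.tests : ℝ) ≤ T := by exact_mod_cast hT
  unfold plantedRate randomRate
  rw [← hN] at h1 ⊢
  obtain ⟨H, hH⟩ : ∃ H : ℝ, H = ((Q / Fintype.card R : ℕ) + 1 : ℝ) * √((2 * Fintype.card R : ℝ) ^ 3) := ⟨_, rfl⟩
  rw [← hH] at h1 ⊢
  rw [div_le_iff₀ (by positivity)]
  have h2 : (p.tests : ℝ) * (d * (N / (2 * h + 1))) ≤ T * (d * (N / (2 * h + 1))) :=
    mul_le_mul_of_nonneg_right hTr (by positivity)
  have h3 := mul_le_mul_of_nonneg_left h2 hn3.le
  refine (h1.trans (by linarith : _ ≤ n ^ 3 * yes p h id + H * N + n ^ 3 * (T * (d * (N / (2 * h + 1)))))).trans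
    (le_of_eq ?_)
  field_simp

open Classical in
/-- the lower bound -/
theorem lower (n h Q T d : ℕ) (R : Type) [Fintype R] [Nonempty R] (hh : 6 * (n ^ 3 + T * d) ≤ 2 * h + 1)
    (Ω : Type) [Fintype Ω] (q : Ω → ℝ) (hq : ∀ ω, 0 ≤ q ω) (hq1 : ∑ ω, q ω = 1) (P : Ω → Prog R (Edge n))
    (hP : ∀ ω, (P ω).loads ≤ Q ∧ (P ω).tests ≤ T ∧ (P ω).degree ≤ d)
    (hR : ∀ w : Edge n → ℤ, (∀ e, |w e| ≤ 2 * h) → 2 / 3 ≤ ∑ ω, if Right (P ω) w then q ω else 0) :
    n ^ 6 ≤ 288 * (Q / Fintype.card R + 1) ^ 2 * Fintype.card R ^ 3 := by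
  set S : ℕ := Fintype.card R with hS
  set F : ℝ := √((2 * S : ℝ) ^ 3) with hF
  have hF0 : 0 ≤ F := Real.sqrt_nonneg _
  obtain ⟨N, hN⟩ : ∃ N : ℝ, N = ((box (Edge n) h).card : ℝ) := ⟨_, rfl⟩
  have hNpos : 0 < N := by
    rw [hN, card_box]
    positivity
  set H : ℝ := ((Q / S : ℕ) + 1 : ℝ) * F with hH
  have hhit : ∀ ω, (((univ : Finset (Tri n)).filter (fun t => Hit (plant t) (P ω) (G0 R (Edge n)))).card : ℝ) ≤ H :=
    fun ω => hit_le Q R (P ω) (hP ω).1
  obtain ⟨B, hB⟩ : ∃ B : ℝ, B = T * (d * (N / (2 * h + 1))) := ⟨_, rfl⟩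
  have hdet : ∀ ω, ∑ t : Tri n, yes (P ω) h (plantZ t) ≤ n ^ 3 * yes (P ω) h id + H * N + n ^ 3 * B := by
    intro ω
    have h1 := det_avg (P ω) h d (hP ω).2.2 H (hhit ω)
    rw [← hN] at h1
    refine h1.trans ?_
    have h2 : ((P ω).tests : ℝ) * (d * (N / (2 * h + 1))) ≤ B := by
      rw [hB]
      have h3 : ((P ω).tests : ℝ) ≤ T := by exact_mod_cast (hP ω).2.1
      exact mul_le_mul_of_nonneg_right h3 (by positivity)
    have h3 := mul_le_mul_of_nonneg_left h2 (by positivity : (0 : ℝ) ≤ (n : ℝ) ^ 3)
    linarith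
  -- the averages of the number of the answers yes
  have hex : ∀ g : (Edge n → ℤ) → (Edge n → ℤ), ∑ ω, q ω * yes (P ω) h g =
      ∑ w ∈ box (Edge n) h, ∑ ω, if (P ω).run (fun e => (g w e : ℚ)) (fun _ => 0) = true then q ω else 0 := by
    intro g
    rw [Finset.sum_comm]
    refine Finset.sum_congr rfl fun ω _ => ?_
    unfold yes
    rw [← Finset.sum_filter, Finset.sum_const, nsmul_eq_mul]
    ring
  have hcard : ((univ : Finset (Tri n)).card : ℝ) = n ^ 3 := by
    rw [Finset.card_univ]
    simp only [Fintype.card_prod, Fintype.card_fin]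
    push_cast
    ring
  have hlow : (n : ℝ) ^ 3 * (2 / 3 * N) ≤ ∑ ω, q ω * ∑ t : Tri n, yes (P ω) h (plantZ t) := by
    have h1 : ∑ ω, q ω * ∑ t : Tri n, yes (P ω) h (plantZ t) =
        ∑ t : Tri n, ∑ ω, q ω * yes (P ω) h (plantZ t) := by
      simp only [Finset.mul_sum]
      rw [Finset.sum_comm]
    rw [h1, ← hcard, ← nsmul_eq_mul, ← Finset.sum_const]
    refine Finset.sum_le_sum fun t _ => ?_
    rw [hex, hN]
    have h2 : (2 / 3 : ℝ) * ((box (Edge n) h).card : ℝ) = ∑ w ∈ box (Edge n) h, (2 / 3 : ℝ) := by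
      rw [Finset.sum_const, nsmul_eq_mul, mul_comm]
    rw [h2]
    refine Finset.sum_le_sum fun w hw => ?_
    refine (hR (plantZ t w) fun e => plantZ_le t w h hw e).trans ?_
    refine Finset.sum_le_sum fun ω _ => ?_
    have h3 : Right (P ω) (plantZ t w) ↔ (P ω).run (fun e => (plantZ t w e : ℚ)) (fun _ => 0) = true :=
      ⟨fun h4 => h4.2 (plantZ_zero t w), fun h4 => ⟨fun _ => plantZ_zero t w, fun _ => h4⟩⟩
    by_cases h4 : Right (P ω) (plantZ t w)
    · rw [if_pos h4, if_pos (h3.1 h4)]
    · rw [if_neg h4, if_neg fun h5 => h4 (h3.2 h5)]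
  have hupp : ∑ ω, q ω * yes (P ω) h id ≤ 1 / 3 * N + n ^ 3 * (N / (2 * h + 1)) := by
    rw [hex]
    have h1 : ∀ w ∈ box (Edge n) h, (∑ ω, if (P ω).run (fun e => ((id w : Edge n → ℤ) e : ℚ)) (fun _ => 0) = true then q ω else 0) ≤
        1 / 3 + if ZeroTriangle w then 1 else 0 := by
      intro w hw
      have hle1 : (∑ ω, if (P ω).run (fun e => ((id w : Edge n → ℤ) e : ℚ)) (fun _ => 0) = true then q ω else 0) ≤ 1 := by
        rw [← hq1]
        refine Finset.sum_le_sum fun ω _ => ?_
        split_ifs
        · exact le_rfl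
        · exact hq ω
      by_cases hz : ZeroTriangle w
      · rw [if_pos hz]
        linarith
      · rw [if_neg hz]
        have h2 := hR w (fun e => by
          have h3 := Finset.mem_Icc.1 (Fintype.mem_piFinset.1 hw e)
          have h4 : (0 : ℤ) ≤ h := Int.natCast_nonneg h
          rw [abs_le]
          constructor <;> linarith [h3.1, h3.2])
        have h3 : (∑ ω, if (P ω).run (fun e => ((id w : Edge n → ℤ) e : ℚ)) (fun _ => 0) = true then q ω else 0) +
            (∑ ω, if Right (P ω) w then q ω else 0) = 1 := by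
          rw [← hq1, ← Finset.sum_add_distrib]
          refine Finset.sum_congr rfl fun ω _ => ?_
          by_cases h4 : (P ω).run (fun e => ((id w : Edge n → ℤ) e : ℚ)) (fun _ => 0) = true
          · rw [if_pos h4, if_neg fun h5 => hz (h5.1 h4), add_zero]
          · rw [if_neg h4, if_pos, zero_add]
            exact ⟨fun h5 => absurd h5 h4, fun h5 => absurd h5 hz⟩
        linarith
    refine (Finset.sum_le_sum h1).trans ?_
    rw [Finset.sum_add_distrib, Finset.sum_const, nsmul_eq_mul, ← Finset.sum_filter, Finset.sum_const, nsmul_eq_mul,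
      mul_one, ← hN]
    have h2 := card_zero (n := n) h
    rw [← hN] at h2
    linarith
  have htot : (n : ℝ) ^ 3 * (2 / 3 * N) ≤
      n ^ 3 * (1 / 3 * N + n ^ 3 * (N / (2 * h + 1))) + H * N + n ^ 3 * B := by
    refine hlow.trans ?_
    calc ∑ ω, q ω * ∑ t : Tri n, yes (P ω) h (plantZ t) ≤
        ∑ ω, q ω * (n ^ 3 * yes (P ω) h id + H * N + n ^ 3 * B) :=
          Finset.sum_le_sum fun ω _ => mul_le_mul_of_nonneg_left (hdet ω) (hq ω)
      _ = n ^ 3 * (∑ ω, q ω * yes (P ω) h id) + (∑ ω, q ω) * (H * N + n ^ 3 * B) := by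
          rw [Finset.mul_sum, Finset.sum_mul, ← Finset.sum_add_distrib]
          refine Finset.sum_congr rfl fun ω _ => ?_
          ring
      _ ≤ _ := by
          rw [hq1, one_mul]
          have := mul_le_mul_of_nonneg_left hupp (by positivity : (0 : ℝ) ≤ (n : ℝ) ^ 3)
          linarith
  have hhr : 6 * ((n : ℝ) ^ 3 + T * d) ≤ 2 * h + 1 := by exact_mod_cast hh
  have hpos : (0 : ℝ) < 2 * h + 1 := by positivity
  have hfrac : ((n : ℝ) ^ 3 + T * d) * (N / (2 * h + 1)) ≤ N / 6 := by
    rw [mul_div_assoc', div_le_div_iff₀ hpos (by norm_num)]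
    nlinarith
  have hH6 : (n : ℝ) ^ 3 ≤ 6 * H := by
    have h1 : (n : ℝ) ^ 3 * (((n : ℝ) ^ 3 + T * d) * (N / (2 * h + 1))) ≤ n ^ 3 * (N / 6) :=
      mul_le_mul_of_nonneg_left hfrac (by positivity)
    have h2 : (n : ℝ) ^ 3 * (N / 6) ≤ H * N := by
      rw [hB] at htot
      nlinarith
    have h3 : (n : ℝ) ^ 3 * N ≤ (6 * H) * N := by linarith
    exact le_of_mul_le_mul_right h3 hNpos
  have hfin : ((n : ℝ) ^ 6) ≤ 288 * ((Q / S : ℕ) + 1 : ℝ) ^ 2 * (S : ℝ) ^ 3 := by
    have h1 : ((n : ℝ) ^ 3) ^ 2 ≤ (6 * H) ^ 2 := pow_le_pow_left₀ (by positivity) hH6 2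
    have h2 : F ^ 2 = (2 * S : ℝ) ^ 3 := by
      rw [hF]
      exact Real.sq_sqrt (by positivity)
    calc ((n : ℝ) ^ 6) = ((n : ℝ) ^ 3) ^ 2 := by ring
      _ ≤ (6 * H) ^ 2 := h1
      _ = 36 * ((Q / S : ℕ) + 1 : ℝ) ^ 2 * F ^ 2 := by rw [hH]; ring
      _ = _ := by rw [h2]; ring
  exact_mod_cast hfin

/-! ### Exhaustive search, block by block -/

section upper

/-- a sequence of loads -/
def loadAll {R E : Type} (c : R → E → ℚ) (l : List R) (q : Prog R E) : Prog R E :=
  l.foldr (fun r q => .load r (c r) 0 q) q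

theorem loadAll_loads {R E : Type} (c : R → E → ℚ) (l : List R) (q : Prog R E) :
    (loadAll c l q).loads = l.length + q.loads := by
  induction l with
  | nil => simp [loadAll]
  | cons r l ih =>
    have : loadAll c (r :: l) q = .load r (c r) 0 (loadAll c l q) := rfl
    rw [this, Prog.loads, ih, List.length_cons]
    ring

theorem loadAll_tests {R E : Type} (c : R → E → ℚ) (l : List R) (q : Prog R E) :
    (loadAll c l q).tests = q.tests := by
  induction l with
  | nil => rfl
  | cons r l ih => exact ih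

theorem loadAll_degree {R E : Type} (c : R → E → ℚ) (l : List R) (q : Prog R E) :
    (loadAll c l q).degree = q.degree := by
  induction l with
  | nil => rfl
  | cons r l ih => exact ih

open Classical in
theorem loadAll_run {R E : Type} [Fintype R] [Fintype E] (c : R → E → ℚ) (w : E → ℚ) (l : List R) (q : Prog R E) :
    ∀ x : R → ℚ, (loadAll c l q).run w x = q.run w (fun r => if r ∈ l then ∑ e, c r e * w e else x r) := by
  induction l with
  | nil =>
    intro x
    simp [loadAll]
  | cons a l ih =>
    intro x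
    have h1 : loadAll c (a :: l) q = .load a (c a) 0 (loadAll c l q) := rfl
    rw [h1, Prog.run, ih]
    congr 1
    funext r
    by_cases hr : r ∈ l
    · rw [if_pos hr, if_pos (List.mem_cons_of_mem _ hr)]
    · rw [if_neg hr]
      by_cases hra : r = a
      · subst hra
        rw [Function.update_self, if_pos List.mem_cons_self, add_zero]
      · rw [Function.update_of_ne hra, if_neg]
        rw [List.mem_cons]
        exact fun h2 => h2.elim hra hr

theorem loadAll_univ {R E : Type} [Fintype R] [Fintype E] (c : R → E → ℚ) (w : E → ℚ) (q : Prog R E) (x : R → ℚ) :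
    (loadAll c (univ : Finset R).toList q).run w x = q.run w (fun r => ∑ e, c r e * w e) := by
  rw [loadAll_run]
  congr 1
  funext r
  rw [if_pos]
  exact Finset.mem_toList.2 (Finset.mem_univ r)

variable {n b m : ℕ}

/-- the registers of the block algorithm -/
abbrev Reg (b : ℕ) := Fin 3 × Fin b × Fin b

/-- the numbers of the end points of the edge in the register `r` for the block `B` -/
def ends (b : ℕ) (B : Fin m × Fin m × Fin m) (r : Reg b) : ℕ × ℕ :=
  ((if r.1 = 1 then B.2.1.1 else B.1.1) * b + r.2.1.1, (if r.1 = 0 then B.2.1.1 else B.2.2.1) * b + r.2.2.1)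

/-- the form which is loaded -/
def coef (n : ℕ) (B : Fin m × Fin m × Fin m) (r : Reg b) : Edge n → ℚ := fun e =>
  if e.1 = r.1 ∧ e.2.1.1 = (ends b B r).1 ∧ e.2.2.1 = (ends b B r).2 then 1 else 0

theorem coef_sum (B : Fin m × Fin m × Fin m) (r : Reg b) (w : Edge n → ℚ) (h1 : (ends b B r).1 < n)
    (h2 : (ends b B r).2 < n) : ∑ e, coef n B r e * w e = w (r.1, ⟨_, h1⟩, ⟨_, h2⟩) := by
  rw [Finset.sum_eq_single (r.1, ⟨_, h1⟩, ⟨_, h2⟩)]
  · unfold coef
    simp
  · rintro ⟨a, x, y⟩ _ hne
    unfold coef
    rw [if_neg, zero_mul]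
    rintro ⟨e1, e2, e3⟩
    apply hne
    simp only [Prod.mk.injEq]
    exact ⟨e1, Fin.ext e2, Fin.ext e3⟩
  · intro h
    exact absurd (Finset.mem_univ _) h

/-- the triples of the block which are triangles of the graph -/
def good (n b : ℕ) (B : Fin m × Fin m × Fin m) : Finset (Fin b × Fin b × Fin b) :=
  univ.filter fun t => B.1.1 * b + t.1.1 < n ∧ B.2.1.1 * b + t.2.1.1 < n ∧ B.2.2.1 * b + t.2.2.1 < n

/-- the test polynomial of a block -/
noncomputable def blockPoly (n b : ℕ) (B : Fin m × Fin m × Fin m) : MvPolynomial (Reg b) ℚ :=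
  ∏ t ∈ good n b B, (MvPolynomial.X (0, t.1, t.2.1) + MvPolynomial.X (1, t.2.1, t.2.2) +
    MvPolynomial.X (2, t.1, t.2.2))

theorem blockPoly_degree (B : Fin m × Fin m × Fin m) : (blockPoly n b B).totalDegree ≤ b ^ 3 := by
  unfold blockPoly
  refine (MvPolynomial.totalDegree_finsetProd _ _).trans ?_
  have h1 : ∀ t ∈ good n b B, (MvPolynomial.X (0, t.1, t.2.1) + MvPolynomial.X (1, t.2.1, t.2.2) +
    MvPolynomial.X (2, t.1, t.2.2) : MvPolynomial (Reg b) ℚ).totalDegree ≤ 1 := by
    intro t _
    refine (MvPolynomial.totalDegree_add _ _).trans (max_le ((MvPolynomial.totalDegree_add _ _).trans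
            (max_le ?_ ?_)) ?_) <;> rw [MvPolynomial.totalDegree_X]
  refine (Finset.sum_le_sum h1).trans ?_
  rw [Finset.sum_const, smul_eq_mul, mul_one]
  refine (Finset.card_le_univ _).trans (le_of_eq ?_)
  simp only [Fintype.card_prod, Fintype.card_fin]
  ring

/-- exhaustive search in the blocks of the list -/
noncomputable def blockProg (n b : ℕ) (L : List (Fin m × Fin m × Fin m)) : Prog (Reg b) (Edge n) :=
  L.foldr (fun B q => loadAll (coef n B) (univ : Finset (Reg b)).toList
    (.test (blockPoly n b B) (.answer true) q)) (.answer false)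

theorem blockProg_loads (L : List (Fin m × Fin m × Fin m)) : (blockProg n b L).loads = L.length * (3 * b ^ 2) := by
  induction L with
  | nil => simp [blockProg, Prog.loads]
  | cons B L ih =>
    have h1 : blockProg n b (B :: L) = loadAll (coef n B) (univ : Finset (Reg b)).toList
      (.test (blockPoly n b B) (.answer true) (blockProg n b L)) := rfl
    rw [h1, loadAll_loads, Finset.length_toList, Finset.card_univ, Prog.loads, ih, Prog.loads, Nat.max_eq_right
      (Nat.zero_le _), List.length_cons]
    simp only [Fintype.card_prod, Fintype.card_fin]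
    ring

theorem blockProg_tests (L : List (Fin m × Fin m × Fin m)) : (blockProg n b L).tests = L.length := by
  induction L with
  | nil => simp [blockProg, Prog.tests]
  | cons B L ih =>
    have h1 : blockProg n b (B :: L) = loadAll (coef n B) (univ : Finset (Reg b)).toList
      (.test (blockPoly n b B) (.answer true) (blockProg n b L)) := rfl
    rw [h1, loadAll_tests, Prog.tests, ih, Prog.tests, Nat.max_eq_right (Nat.zero_le _), List.length_cons]

theorem blockProg_degree (L : List (Fin m × Fin m × Fin m)) : (blockProg n b L).degree ≤ b ^ 3 := by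
  induction L with
  | nil => simp [blockProg, Prog.degree]
  | cons B L ih =>
    have h1 : blockProg n b (B :: L) = loadAll (coef n B) (univ : Finset (Reg b)).toList
      (.test (blockPoly n b B) (.answer true) (blockProg n b L)) := rfl
    rw [h1, loadAll_degree, Prog.degree]
    exact max_le (blockPoly_degree B) (max_le (Nat.zero_le _) ih)

theorem blockProg_run (w : Edge n → ℤ) (L : List (Fin m × Fin m × Fin m)) : ∀ x : Reg b → ℚ,
    (blockProg n b L).run (fun e => (w e : ℚ)) x = true ↔ ∃ B ∈ L, ∃ x y z : Fin b,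
      ∃ (h1 : B.1.1 * b + x.1 < n) (h2 : B.2.1.1 * b + y.1 < n) (h3 : B.2.2.1 * b + z.1 < n),
        w (0, ⟨_, h1⟩, ⟨_, h2⟩) + w (1, ⟨_, h2⟩, ⟨_, h3⟩) + w (2, ⟨_, h1⟩, ⟨_, h3⟩) = 0 := by
  classical
  induction L with
  | nil =>
    intro x
    simp [blockProg, Prog.run]
  | cons B L ih =>
    intro x
    have h1 : blockProg n b (B :: L) = loadAll (coef n B) (univ : Finset (Reg b)).toList
      (.test (blockPoly n b B) (.answer true) (blockProg n b L)) := rfl
    rw [h1, loadAll_univ, Prog.run]
    obtain ⟨x', hx'⟩ : ∃ x' : Reg b → ℚ, x' = fun r => ∑ e, coef n B r e * (w e : ℚ) := ⟨_, rfl⟩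
    rw [← hx']
    have hx'' : ∀ r, x' r = ∑ e, coef n B r e * (w e : ℚ) := fun r => by rw [hx']
    have hiff : MvPolynomial.eval x' (blockPoly n b B) = 0 ↔ ∃ x y z : Fin b,
      ∃ (h1 : B.1.1 * b + x.1 < n) (h2 : B.2.1.1 * b + y.1 < n) (h3 : B.2.2.1 * b + z.1 < n),
        w (0, ⟨_, h1⟩, ⟨_, h2⟩) + w (1, ⟨_, h2⟩, ⟨_, h3⟩) + w (2, ⟨_, h1⟩, ⟨_, h3⟩) = 0 := by
      unfold blockPoly
      rw [map_prod, Finset.prod_eq_zero_iff]
      have key : ∀ x y z : Fin b, ∀ (h1 : B.1.1 * b + x.1 < n) (h2 : B.2.1.1 * b + y.1 < n)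
          (h3 : B.2.2.1 * b + z.1 < n), x' (0, x, y) + x' (1, y, z) + x' (2, x, z) =
          ((w (0, ⟨_, h1⟩, ⟨_, h2⟩) + w (1, ⟨_, h2⟩, ⟨_, h3⟩) + w (2, ⟨_, h1⟩, ⟨_, h3⟩) : ℤ) : ℚ) := by
        intro x y z h1 h2 h3
        rw [hx'', hx'', hx'', coef_sum B (0, x, y) (fun e => (w e : ℚ)) (by simpa [ends] using h1)
          (by simpa [ends] using h2), coef_sum B (1, y, z) (fun e => (w e : ℚ)) (by simpa [ends] using h2)
          (by simpa [ends] using h3), coef_sum B (2, x, z) (fun e => (w e : ℚ)) (by simpa [ends] using h1)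
          (by simpa [ends] using h3)]
        push_cast
        simp [ends]
      constructor
      · rintro ⟨t, ht, h0⟩
        unfold good at ht
        rw [Finset.mem_filter] at ht
        obtain ⟨-, h1, h2, h3⟩ := ht
        refine ⟨t.1, t.2.1, t.2.2, h1, h2, h3, ?_⟩
        simp only [map_add, MvPolynomial.eval_X] at h0
        rw [key _ _ _ h1 h2 h3] at h0
        exact_mod_cast h0
      · rintro ⟨x, y, z, h1, h2, h3, h0⟩
        refine ⟨(x, y, z), ?_, ?_⟩
        · unfold good
          rw [Finset.mem_filter]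
          exact ⟨Finset.mem_univ _, h1, h2, h3⟩
        · simp only [map_add, MvPolynomial.eval_X]
          rw [key _ _ _ h1 h2 h3, h0]
          norm_num
    by_cases h0 : MvPolynomial.eval x' (blockPoly n b B) = 0
    · rw [if_pos h0]
      obtain ⟨x1, y1, z1, h4⟩ := hiff.1 h0
      simp only [Prog.run, true_iff]
      exact ⟨B, List.mem_cons_self, x1, y1, z1, h4⟩
    · rw [if_neg h0, ih]
      constructor
      · rintro ⟨B', hB', h4⟩
        exact ⟨B', List.mem_cons_of_mem _ hB', h4⟩
      · rintro ⟨B', hB', h4⟩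
        rcases List.mem_cons.1 hB' with h5 | h5
        · subst h5
          exact absurd (hiff.2 h4) h0
        · exact ⟨B', h5, h4⟩

/-- the upper bound -/
theorem upper (n b m : ℕ) (hn : n ≤ m * b) : ∃ p : Prog (Reg b) (Edge n), p.loads ≤ 3 * b ^ 2 * m ^ 3 ∧
    p.tests ≤ m ^ 3 ∧ p.degree ≤ b ^ 3 ∧ ∀ w, Right p w := by
  set L : List (Fin m × Fin m × Fin m) := (univ : Finset (Fin m × Fin m × Fin m)).toList with hL
  have hlen : L.length = m ^ 3 := by
    rw [hL, Finset.length_toList, Finset.card_univ]
    simp only [Fintype.card_prod, Fintype.card_fin]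
    ring
  refine ⟨blockProg n b L, ?_, ?_, blockProg_degree L, fun w => ?_⟩
  · rw [blockProg_loads, hlen, mul_comm]
  · rw [blockProg_tests, hlen]
  · unfold Right
    rw [blockProg_run]
    constructor
    · rintro ⟨B, -, x, y, z, h1, h2, h3, h0⟩
      exact ⟨_, _, _, h0⟩
    · rintro ⟨i, j, k, h0⟩
      have hb : 0 < b := by
        rcases Nat.eq_zero_or_pos b with hb | hb
        · subst hb
          have := i.2
          omega
        · exact hb
      have hdiv : ∀ i : Fin n, i.1 / b < m := fun i => by
        rw [Nat.div_lt_iff_lt_mul hb]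
        exact i.2.trans_le hn
      have hmod : ∀ i : Fin n, i.1 % b < b := fun i => Nat.mod_lt _ hb
      have he : ∀ i : Fin n, i.1 / b * b + i.1 % b = i.1 := fun i => Nat.div_add_mod' i.1 b
      refine ⟨(⟨i.1 / b, hdiv i⟩, ⟨j.1 / b, hdiv j⟩, ⟨k.1 / b, hdiv k⟩), by rw [hL]; simp,
        ⟨i.1 % b, hmod i⟩, ⟨j.1 % b, hmod j⟩, ⟨k.1 % b, hmod k⟩, ?_, ?_, ?_, ?_⟩
      · rw [he]; exact i.2
      · rw [he]; exact j.2
      · rw [he]; exact k.2
      · simp only [he]
        exact h0

end upper

open Classical in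
/-- **Main theorem.** The instances of Exact Triangle are complete tripartite graphs with `n` vertices in each part and
integral weights `w : Edge n → ℤ`. `S` is the number of the registers (the number of the elements of `R`).

1. For random weights, with and without a planted triangle of weight zero: let `p` be a program with at most `Q` steps
`load` and `T` steps `test` on a branch, the tested polynomials having a degree of at most `d`. The probability of the
answer yes with a planted triangle exceeds the one without by at most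
`(⌊Q / S⌋ + 1) (2 S) ^ (3 / 2) / n ^ 3 + T d / (2 h + 1)`.

2. Random programs: let `P ω`, with the probability `q ω`, be such programs, and let the answer be right with probability at
least `2 / 3` for each instance with weights in `[-2 h, 2 h]`, where `6 (n ^ 3 + T d) ≤ 2 h + 1`. Then
`n ^ 6 ≤ 288 (⌊Q / S⌋ + 1) ^ 2 S ^ 3`.

3. If `n ≤ m b` then some program with `3 b ^ 2` registers, at most `3 b ^ 2 m ^ 3` steps `load` and `m ^ 3` steps `test` of
polynomials of degree at most `b ^ 3` is right about all instances. -/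
theorem result :
    (∀ n h Q T d : ℕ, 1 ≤ n → ∀ (R : Type) [Fintype R] [Nonempty R] (p : Prog R (Edge n)),
      p.loads ≤ Q → p.tests ≤ T → p.degree ≤ d → plantedRate p h ≤ randomRate p h +
        ((Q / Fintype.card R : ℕ) + 1 : ℝ) * √((2 * Fintype.card R : ℝ) ^ 3) / n ^ 3 + T * d / (2 * h + 1)) ∧
    (∀ (n h Q T d : ℕ) (R : Type) [Fintype R] [Nonempty R], 6 * (n ^ 3 + T * d) ≤ 2 * h + 1 →
      ∀ (Ω : Type) [Fintype Ω] (q : Ω → ℝ), (∀ ω, 0 ≤ q ω) → ∑ ω, q ω = 1 → ∀ P : Ω → Prog R (Edge n),
      (∀ ω, (P ω).loads ≤ Q ∧ (P ω).tests ≤ T ∧ (P ω).degree ≤ d) →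
      (∀ w : Edge n → ℤ, (∀ e, |w e| ≤ 2 * h) → 2 / 3 ≤ ∑ ω, if Right (P ω) w then q ω else 0) →
      n ^ 6 ≤ 288 * (Q / Fintype.card R + 1) ^ 2 * Fintype.card R ^ 3) ∧
    (∀ n b m : ℕ, n ≤ m * b → ∃ p : Prog (Fin 3 × Fin b × Fin b) (Edge n), p.loads ≤ 3 * b ^ 2 * m ^ 3 ∧
      p.tests ≤ m ^ 3 ∧ p.degree ≤ b ^ 3 ∧ ∀ w, Right p w) :=
  ⟨fun n h Q T d hn R _ _ p hQ hT hd => average n h Q T d hn R p hQ hT hd,
    fun n h Q T d R _ _ hh Ω _ q hq hq1 P hP hR => lower n h Q T d R hh Ω q hq hq1 P hP hR,
    fun n b m hn => upper n b m hn⟩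

end Pool.Agent.Results.MP_62fbe0_lc.SmallFastMemory
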