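import Pool.Agent.H85T.C

set_option autoImplicit false

/-!
# Exact Triangle, all edges: time and space

The input consists of the integral weights of the `3 n ^ 2` edges of a complete tripartite graph
with three parts of `n` vertices; the task is to find all edges between the first two parts which
are in no triangle of weight zero.

The machine has at most `2 ^ S` states (that is, `S` bits of memory), random access to the input,
which it can only read, and it can do any computation between two reads: a program is a nonuniform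
branching program whose nodes read whole weights and which reports edges on the way; reports are
not stored. We show that such programs, also random ones with error probability `1 / 3`, need
`T > n ^ 3 / (40 √W)` reads, `W = (log₂ n + 4) (S + 2 log₂ n + 4)`, if `200 W ≤ n ^ 2`.

Proof (Borodin-Cook method). All weights between the first two parts are `1 - 4 n`, the other ones
are random in `[0, 4 n)`. Let `s ^ 2` be a little more than `16 W`. In `s n` reads a program reads
both edges of at most half of the paths `i - k - j` over any `s ^ 2` pairs `(i, j)`. If no value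
occurs more than `log₂ n + 4` times in a column, then `s ^ 2` given pairs are in no zero triangle
with probability at most `exp (- s ^ 2 / (16 (log₂ n + 4)))`, given what has been read. So no segment of
`s n` reads reports `s ^ 2` right pairs, for most inputs, from whatever state it starts.
-/

namespace Pool.Agent.Results.MP_62fbe0_lc.SpaceBoundedAllEdges

open Finset Pool.Agent.H85T

/-- The edges of the complete tripartite graph with three parts of `n` vertices: `(0, i, j)` joins
vertex `i` of the first part to vertex `j` of the second part, `(1, j, k)` joins vertex `j` of the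
second part to vertex `k` of the third part, `(2, i, k)` joins vertex `i` of the first part to
vertex `k` of the third part. -/
abbrev Edge (n : ℕ) := Fin 3 × Fin n × Fin n

/-- The edge between vertex `i` of the first part and vertex `j` of the second part is in a triangle
of weight zero. -/
def InZeroTriangle {n : ℕ} (w : Edge n → ℤ) (i j : Fin n) : Prop :=
  ∃ k : Fin n, w (0, i, j) + w (1, j, k) + w (2, i, k) = 0

/-- A program with the set of states `Q`: in the state `q`, at the time `t`, it reads the weight `v`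
of the edge `read t q`, reports the finite set of pairs `report t q v`, and goes to the state
`next t q v`. -/
structure Prog (n : ℕ) (Q : Type) where
  /-- the first state -/
  start : Q
  /-- the edge whose weight is read -/
  read : ℕ → Q → Edge n
  /-- the next state -/
  next : ℕ → Q → ℤ → Q
  /-- the pairs which are reported -/
  report : ℕ → Q → ℤ → Finset (Fin n × Fin n)

/-- the state at the time `t` -/
def Prog.state {n : ℕ} {Q : Type} (P : Prog n Q) (w : Edge n → ℤ) : ℕ → Q
  | 0 => P.start
  | t + 1 => P.next t (P.state w t) (w (P.read t (P.state w t)))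

/-- the pairs reported in the first `T` steps -/
def Prog.reported {n : ℕ} {Q : Type} (P : Prog n Q) (w : Edge n → ℤ) (T : ℕ) :
    Finset (Fin n × Fin n) :=
  (range T).biUnion fun t => P.report t (P.state w t) (w (P.read t (P.state w t)))

/-- In `T` steps the program reports exactly the edges between the first two parts which are in no
triangle of weight zero. -/
def Prog.Right {n : ℕ} {Q : Type} (P : Prog n Q) (w : Edge n → ℤ) (T : ℕ) : Prop :=
  ∀ i j : Fin n, (i, j) ∈ P.reported w T ↔ ¬ InZeroTriangle w i j

/-- All weights between the first two parts are `1 - 4 n`, the other weights are in `[0, 4 n)`. -/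
def Special {n : ℕ} (w : Edge n → ℤ) : Prop :=
  (∀ i j, w (0, i, j) = 1 - 4 * n) ∧
    ∀ i j, 0 ≤ w (1, i, j) ∧ w (1, i, j) < 4 * n ∧ 0 ≤ w (2, i, j) ∧ w (2, i, j) < 4 * n

/-! ### Segments -/

section

variable {n : ℕ} {Q : Type}

/-- the weights given by `y` -/
def W (y : Edge n → Fin (4 * n)) (e : Edge n) : ℤ :=
  if e.1 = 0 then 1 - 4 * n else ((y e : ℕ) : ℤ)

theorem special_W (y : Edge n → Fin (4 * n)) : Special (W y) := by
  refine ⟨fun i j => by simp [W], fun i j => ?_⟩
  have h1 := (y (1, i, j)).isLt
  have h2 := (y (2, i, j)).isLt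
  simp only [W]
  rw [if_neg (by simp), if_neg (by simp)]
  omega

theorem noHit_iff (y : Edge n → Fin (4 * n)) (i j : Fin n) :
    ¬ InZeroTriangle (W y) i j ↔ NoHit y i j := by
  unfold InZeroTriangle NoHit
  push Not
  refine forall_congr' fun k => ?_
  have h1 := (y (1, j, k)).isLt
  have h2 := (y (2, i, k)).isLt
  simp only [W]
  rw [if_pos trivial, if_neg (by simp), if_neg (by simp), not_iff_not, Fin.ext_iff, Fin.val_rev]
  omega

/-- what is reported in `r` steps from the state `q` at the time `t` -/
def rep (P : Prog n Q) (w : Edge n → ℤ) : ℕ → ℕ → Q → Finset (Fin n × Fin n)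
  | 0, _, _ => ∅
  | r + 1, t, q => P.report t q (w (P.read t q)) ∪
      rep P w r (t + 1) (P.next t q (w (P.read t q)))

theorem reported_add (P : Prog n Q) (w : Edge n → ℤ) (r t : ℕ) :
    P.reported w (t + r) = P.reported w t ∪ rep P w r t (P.state w t) := by
  induction r generalizing t with
  | zero => simp [rep]
  | succ r ih =>
    have h1 : P.reported w (t + 1) = P.reported w t ∪
        P.report t (P.state w t) (w (P.read t (P.state w t))) := by
      unfold Prog.reported
      rw [range_add_one, biUnion_insert, union_comm]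
    rw [show t + (r + 1) = (t + 1) + r by ring, ih (t + 1), h1, rep, union_assoc]
    rfl

/-- A segment of a program, started in any state, which has read the cells in `D`. -/
theorem seg (hn : 0 < n) {L s : ℕ} (hL : 0 < L) (P : Prog n Q) (r : ℕ) :
    ∀ (t : ℕ) (q : Q) (R : Finset (Fin n × Fin n)) (D : Finset (Edge n))
      (y0 : Edge n → Fin (4 * n)), D.card + r ≤ s * n →
    (((Cyl D y0).filter fun y => Typ L y ∧ s * s ≤ (R ∪ rep P (W y) r t q).card ∧
      ∀ e ∈ R ∪ rep P (W y) r t q, NoHit y e.1 e.2).card : ℝ) ≤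
      Real.exp (-((s * s : ℝ) / (16 * L))) * (Cyl D y0).card := by
  classical
  induction r with
  | zero =>
    intro t q R D y0 hD
    simp only [rep, union_empty]
    exact leaf hn hL (by omega) R y0
  | succ r ih =>
    intro t q R D y0 hD
    refine refine_le (by omega) (subset_insert (P.read t q) D) y0 _ _ fun y' _ => ?_
    set v : ℤ := W y' (P.read t q) with hv
    have hD' : (insert (P.read t q) D).card + r ≤ s * n := by
      have := card_insert_le (P.read t q) D
      omega
    refine le_trans ?_ (ih (t + 1) (P.next t q v) (R ∪ P.report t q v)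
      (insert (P.read t q) D) y' hD')
    refine Nat.cast_le.2 (card_le_card fun y hy => ?_)
    rw [mem_filter] at hy ⊢
    have hy1 : W y (P.read t q) = v := by
      rw [hv]
      unfold W
      rw [mem_Cyl.1 hy.1 (P.read t q) (mem_insert_self _ _)]
    have hrep : R ∪ rep P (W y) (r + 1) t q =
        (R ∪ P.report t q v) ∪ rep P (W y) r (t + 1) (P.next t q v) := by
      rw [rep, hy1, union_assoc]
    rw [hrep] at hy
    exact hy

/-- the inputs on which the segment reports many right pairs -/
theorem seg' (hn : 0 < n) {L s : ℕ} (hL : 0 < L) (P : Prog n Q) (r t : ℕ) (q : Q)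
    (hr : r ≤ s * n) :
    (((univ : Finset (Edge n → Fin (4 * n))).filter fun y => Typ L y ∧
      s * s ≤ (rep P (W y) r t q).card ∧ ∀ e ∈ rep P (W y) r t q, NoHit y e.1 e.2).card : ℝ) ≤
      Real.exp (-((s * s : ℝ) / (16 * L))) * (4 * n : ℝ) ^ Fintype.card (Edge n) := by
  have : NeZero (4 * n) := ⟨by omega⟩
  have h := seg hn (s := s) hL P r t q ∅ ∅ (fun _ => (0 : Fin (4 * n))) (by simpa using hr)
  have hcyl : Cyl (∅ : Finset (Edge n)) (fun _ => (0 : Fin (4 * n))) = univ := by
    ext y
    rw [mem_Cyl]
    simp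
  simp only [empty_union] at h
  rw [hcyl, card_univ, Fintype.card_fun, Fintype.card_fin] at h
  push_cast at h
  exact h

/-- splitting the run into segments -/
theorem reported_sub (P : Prog n Q) (w : Edge n → ℤ) (T h : ℕ) (K : ℕ) :
    P.reported w (min T (K * h)) ⊆ (range K).biUnion fun a =>
      rep P w (min T ((a + 1) * h) - min T (a * h)) (min T (a * h))
        (P.state w (min T (a * h))) := by
  induction K with
  | zero => simp [Prog.reported]
  | succ K ih =>
    have hle : min T (K * h) ≤ min T ((K + 1) * h) :=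
      min_le_min_left _ (Nat.mul_le_mul_right _ (Nat.le_succ K))
    have e1 : min T ((K + 1) * h) = min T (K * h) + (min T ((K + 1) * h) - min T (K * h)) := by
      omega
    rw [e1, reported_add, range_add_one, biUnion_insert]
    refine union_subset ?_ ?_
    · exact ih.trans subset_union_right
    · exact subset_union_left

/-- A deterministic program is right on less than two thirds of the inputs. -/
theorem det [Fintype Q] (hn : 0 < n) {L s K T : ℕ} (hL : 8 * n ≤ 2 ^ L) (P : Prog n Q)
    (hT : T ≤ K * (s * n)) (hK : 4 * (K * (s * s)) ≤ n ^ 2)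
    (hε : (K : ℝ) * Fintype.card Q * Real.exp (-((s * s : ℝ) / (16 * L))) ≤ 1 / 4)
    (A : Finset (Edge n → Fin (4 * n))) (hA : ∀ y ∈ A, P.Right (W y) T) :
    (A.card : ℝ) < 2 / 3 * (4 * n : ℝ) ^ Fintype.card (Edge n) := by
  classical
  have hL0 : 0 < L := by
    rcases Nat.eq_zero_or_pos L with h | h
    · subst h
      simp at hL
      omega
    · exact h
  set N : ℝ := (4 * n : ℝ) ^ Fintype.card (Edge n) with hN
  have hN0 : 0 < N := by positivity
  set Y := (univ : Finset (Edge n → Fin (4 * n))) with hY
  set B : ℕ → Q → Finset (Edge n → Fin (4 * n)) := fun a q => Y.filter fun y => Typ L y ∧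
      s * s ≤ (rep P (W y) (min T ((a + 1) * (s * n)) - min T (a * (s * n)))
        (min T (a * (s * n))) q).card ∧
      ∀ e ∈ rep P (W y) (min T ((a + 1) * (s * n)) - min T (a * (s * n)))
        (min T (a * (s * n))) q, NoHit y e.1 e.2 with hB
  have hsub : A ⊆ (Y.filter fun y => ¬ Typ L y) ∪
      ((Y.filter fun y => 4 * (Free y).card ≤ n ^ 2) ∪
        (range K).biUnion fun a => (univ : Finset Q).biUnion fun q => B a q) := by
    intro y hy
    rw [mem_union, mem_union, mem_filter, mem_filter]
    by_cases hTy : Typ L y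
    swap
    · exact Or.inl ⟨mem_univ _, hTy⟩
    by_cases hF : 4 * (Free y).card ≤ n ^ 2
    · exact Or.inr (Or.inl ⟨mem_univ _, hF⟩)
    · right; right
      have hR := hA y hy
      have hrep : P.reported (W y) T = Free y := by
        ext ⟨i, j⟩
        rw [hR i j, noHit_iff]
        unfold Free
        rw [mem_filter]
        exact ⟨fun h => ⟨mem_univ _, h⟩, fun h => h.2⟩
      have h1 := reported_sub P (W y) T (s * n) K
      rw [min_eq_left hT] at h1
      by_contra hc
      have h2 : ∀ a ∈ range K, (rep P (W y) (min T ((a + 1) * (s * n)) - min T (a * (s * n)))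
          (min T (a * (s * n))) (P.state (W y) (min T (a * (s * n))))).card ≤ s * s := by
        intro a ha
        by_contra hcard
        rw [not_le] at hcard
        apply hc
        rw [mem_biUnion]
        refine ⟨a, ha, ?_⟩
        rw [mem_biUnion]
        refine ⟨P.state (W y) (min T (a * (s * n))), mem_univ _, ?_⟩
        rw [hB]
        simp only
        rw [mem_filter]
        refine ⟨mem_univ _, hTy, hcard.le, ?_⟩
        intro e he
        have hle : min T (a * (s * n)) ≤ min T ((a + 1) * (s * n)) :=
          min_le_min_left _ (Nat.mul_le_mul_right _ (Nat.le_succ a))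
        have h3 := reported_add P (W y) (min T ((a + 1) * (s * n)) - min T (a * (s * n)))
          (min T (a * (s * n)))
        have h4 : e ∈ P.reported (W y) (min T (a * (s * n)) +
            (min T ((a + 1) * (s * n)) - min T (a * (s * n)))) := by
          rw [h3]
          exact mem_union_right _ he
        have h5 : P.reported (W y) (min T (a * (s * n)) +
            (min T ((a + 1) * (s * n)) - min T (a * (s * n)))) ⊆ P.reported (W y) T := by
          unfold Prog.reported
          apply biUnion_subset_biUnion_of_subset_left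
          rw [range_subset_range]
          have := min_le_left T ((a + 1) * (s * n))
          omega
        have h6 := h5 h4
        rw [hrep] at h6
        unfold Free at h6
        rw [mem_filter] at h6
        exact h6.2
      have h3 : (P.reported (W y) T).card ≤ K * (s * s) := by
        refine (card_le_card h1).trans (card_biUnion_le.trans ?_)
        refine (sum_le_sum h2).trans ?_
        rw [sum_const, card_range, smul_eq_mul]
      rw [hrep] at h3
      omega
  have hBc : ∀ a q, ((B a q).card : ℝ) ≤ Real.exp (-((s * s : ℝ) / (16 * L))) * N := by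
    intro a q
    refine seg' hn hL0 P _ _ q ?_
    have h1 : (a + 1) * (s * n) = a * (s * n) + s * n := by ring
    have h2 : min T ((a + 1) * (s * n)) ≤ min T (a * (s * n)) + s * n := by
      rw [h1]
      rcases le_total T (a * (s * n)) with h | h
      · rw [min_eq_left h]
        exact (min_le_left _ _).trans (Nat.le_add_right _ _)
      · rw [min_eq_right h]
        exact min_le_right _ _
    omega
  have h1 := card_not_typ hn hL
  have h2 := card_few hn
  have h1' : 32 * ((Y.filter fun y => ¬ Typ L y).card : ℝ) ≤ N := by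
    rw [hN]
    exact_mod_cast h1
  have h2' : 3 * ((Y.filter fun y => 4 * (Free y).card ≤ n ^ 2).card : ℝ) ≤ N := by
    rw [hN]
    exact_mod_cast h2
  have h3 : (((range K).biUnion fun a => (univ : Finset Q).biUnion fun q => B a q).card : ℝ) ≤
      1 / 4 * N := by
    calc (((range K).biUnion fun a => (univ : Finset Q).biUnion fun q => B a q).card : ℝ)
        ≤ ∑ a ∈ range K, ∑ q : Q, ((B a q).card : ℝ) := by
          have := (card_biUnion_le (s := range K)
            (t := fun a => (univ : Finset Q).biUnion fun q => B a q)).trans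
            (sum_le_sum fun a _ => card_biUnion_le)
          exact_mod_cast this
      _ ≤ ∑ a ∈ range K, ∑ q : Q, Real.exp (-((s * s : ℝ) / (16 * L))) * N :=
          sum_le_sum fun a _ => sum_le_sum fun q _ => hBc a q
      _ = (K : ℝ) * Fintype.card Q * Real.exp (-((s * s : ℝ) / (16 * L))) * N := by
          rw [sum_const, sum_const, card_range, card_univ, nsmul_eq_mul, nsmul_eq_mul]
          ring
      _ ≤ 1 / 4 * N := mul_le_mul_of_nonneg_right hε hN0.le
  have h4 : (A.card : ℝ) ≤ ((Y.filter fun y => ¬ Typ L y).card : ℝ) +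
      (((Y.filter fun y => 4 * (Free y).card ≤ n ^ 2).card : ℝ) +
      (((range K).biUnion fun a => (univ : Finset Q).biUnion fun q => B a q).card : ℝ)) := by
    have := (card_le_card hsub).trans ((card_union_le _ _).trans
      (Nat.add_le_add_left (card_union_le _ _) _))
    exact_mod_cast this
  nlinarith

end

/-- the bound for the parameter `s` -/
theorem bound (n S T s : ℕ) (hn : 0 < n) (Ω : Type) [Fintype Ω] (p : Ω → ℝ) (hp : ∀ ω, 0 ≤ p ω)
    (hp1 : ∑ ω, p ω = 1) (Q : Ω → Type) [∀ ω, Fintype (Q ω)] (P : ∀ ω, Prog n (Q ω))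
    (hQ : ∀ ω, Fintype.card (Q ω) ≤ 2 ^ S)
    (hright : ∀ w : Edge n → ℤ, Special w →
      (2 / 3 : ℝ) ≤ ∑ ω, open Classical in if (P ω).Right w T then p ω else 0)
    (hs0 : 0 < s) (hs : 8 * (s * s) ≤ n ^ 2)
    (hs2 : 16 * ((Nat.log 2 n + 4) * (S + 2 * Nat.log 2 n + 4)) ≤ s * s) :
    n ^ 3 < 8 * (s * T) := by
  classical
  by_contra hc
  rw [not_lt] at hc
  set L := Nat.log 2 n + 4 with hL
  set K := n ^ 2 / (4 * (s * s)) with hK
  have hlog : n < 2 ^ (Nat.log 2 n + 1) := Nat.lt_pow_succ_log_self (by norm_num) n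
  have h8 : 8 * n ≤ 2 ^ L := by
    have : 2 ^ L = 8 * 2 ^ (Nat.log 2 n + 1) := by rw [hL]; ring
    omega
  have hss : 0 < s * s := Nat.mul_pos hs0 hs0
  have hK1 : 4 * (K * (s * s)) ≤ n ^ 2 := by
    have := Nat.div_mul_le_self (n ^ 2) (4 * (s * s))
    calc 4 * (K * (s * s)) = K * (4 * (s * s)) := by ring
      _ ≤ n ^ 2 := this
  have hK2 : n ^ 2 < (K + 1) * (4 * (s * s)) := by
    have := Nat.lt_div_mul_add (a := n ^ 2) (b := 4 * (s * s)) (by omega)
    calc n ^ 2 < n ^ 2 / (4 * (s * s)) * (4 * (s * s)) + 4 * (s * s) := this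
      _ = (K + 1) * (4 * (s * s)) := by rw [hK]; ring
  have hK3 : n ^ 2 ≤ 8 * (K * (s * s)) := by
    have : (K + 1) * (4 * (s * s)) = 4 * (K * (s * s)) + 4 * (s * s) := by ring
    omega
  have hT : T ≤ K * (s * n) := by
    have h1 : (8 * s) * T ≤ (8 * s) * (K * (s * n)) := by
      calc (8 * s) * T = 8 * (s * T) := by ring
        _ ≤ n ^ 3 := hc
        _ = n ^ 2 * n := by ring
        _ ≤ 8 * (K * (s * s)) * n := Nat.mul_le_mul_right _ hK3
        _ = (8 * s) * (K * (s * n)) := by ring
    exact Nat.le_of_mul_le_mul_left h1 (by omega)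
  have hKn : K ≤ n ^ 2 := Nat.div_le_self _ _
  -- the exponential
  have hL0 : 0 < L := by omega
  have hexp : (4 * (n : ℝ) ^ 2 * 2 ^ S) * Real.exp (-((s * s : ℝ) / (16 * L))) ≤ 1 := by
    have h1 : ((S + 2 * Nat.log 2 n + 4 : ℕ) : ℝ) ≤ (s * s : ℝ) / (16 * L) := by
      rw [le_div_iff₀ (by positivity)]
      have : ((16 * (L * (S + 2 * Nat.log 2 n + 4)) : ℕ) : ℝ) ≤ ((s * s : ℕ) : ℝ) := by
        exact_mod_cast hs2
      push_cast at this ⊢
      linarith
    have h2 : (4 * (n : ℝ) ^ 2 * 2 ^ S) ≤ 2 ^ (S + 2 * Nat.log 2 n + 4) := by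
      have h3 : 4 * n ^ 2 * 2 ^ S ≤ 2 ^ (S + 2 * Nat.log 2 n + 4) := by
        calc 4 * n ^ 2 * 2 ^ S ≤ 4 * (2 ^ (Nat.log 2 n + 1)) ^ 2 * 2 ^ S := by gcongr
          _ = 2 ^ (S + 2 * Nat.log 2 n + 4) := by ring
      exact_mod_cast h3
    have h4 : (2 : ℝ) ^ (S + 2 * Nat.log 2 n + 4) ≤ Real.exp ((s * s : ℝ) / (16 * L)) := by
      calc (2 : ℝ) ^ (S + 2 * Nat.log 2 n + 4)
          ≤ (Real.exp 1) ^ (S + 2 * Nat.log 2 n + 4) := by
            apply pow_le_pow_left₀ (by norm_num)
            have := Real.add_one_le_exp (1 : ℝ)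
            linarith
        _ = Real.exp ((S + 2 * Nat.log 2 n + 4 : ℕ) : ℝ) := by
            rw [← Real.exp_nat_mul]
            congr 1
            ring
        _ ≤ _ := Real.exp_le_exp.2 h1
    rw [Real.exp_neg, ← div_eq_mul_inv, div_le_one (Real.exp_pos _)]
    exact h2.trans h4
  have hN0 : (0 : ℝ) < (4 * n : ℝ) ^ Fintype.card (Edge n) := by
    have : (0 : ℝ) < n := by exact_mod_cast hn
    positivity
  have hdet : ∀ ω, (((univ : Finset (Edge n → Fin (4 * n))).filter
      fun y => (P ω).Right (W y) T).card : ℝ) <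
      2 / 3 * (4 * n : ℝ) ^ Fintype.card (Edge n) := by
    intro ω
    refine det hn h8 (P ω) hT hK1 ?_ _ fun y hy => (mem_filter.1 hy).2
    have h1 : (K : ℝ) ≤ (n : ℝ) ^ 2 := by exact_mod_cast hKn
    have h2 : (Fintype.card (Q ω) : ℝ) ≤ 2 ^ S := by exact_mod_cast hQ ω
    have h3 : (K : ℝ) * Fintype.card (Q ω) ≤ (n : ℝ) ^ 2 * 2 ^ S :=
      mul_le_mul h1 h2 (by positivity) (by positivity)
    have h4 := mul_le_mul_of_nonneg_right h3 (Real.exp_pos (-((s * s : ℝ) / (16 * L)))).le
    nlinarith
  have hsum : ∑ y : Edge n → Fin (4 * n), ∑ ω, (if (P ω).Right (W y) T then p ω else 0) =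
      ∑ ω, p ω * ((univ : Finset (Edge n → Fin (4 * n))).filter
        fun y => (P ω).Right (W y) T).card := by
    rw [sum_comm]
    refine sum_congr rfl fun ω _ => ?_
    rw [← sum_filter, sum_const, nsmul_eq_mul, mul_comm]
  have h1 : 2 / 3 * (4 * n : ℝ) ^ Fintype.card (Edge n) ≤
      ∑ y : Edge n → Fin (4 * n), ∑ ω, (if (P ω).Right (W y) T then p ω else 0) := by
    calc 2 / 3 * (4 * n : ℝ) ^ Fintype.card (Edge n)
        = ∑ y : Edge n → Fin (4 * n), (2 / 3 : ℝ) := by
          rw [sum_const, card_univ, Fintype.card_fun, Fintype.card_fin, nsmul_eq_mul]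
          push_cast
          ring
      _ ≤ _ := sum_le_sum fun y _ => by
          have := hright (W y) (special_W y)
          convert this
  rw [hsum] at h1
  obtain ⟨ω₀, hω₀⟩ : ∃ ω, 0 < p ω := by
    by_contra hne
    push Not at hne
    have : ∑ ω, p ω ≤ 0 := sum_nonpos fun ω _ => hne ω
    linarith
  have h2 : ∑ ω, p ω * (((univ : Finset (Edge n → Fin (4 * n))).filter
        fun y => (P ω).Right (W y) T).card : ℝ) <
      ∑ ω, p ω * (2 / 3 * (4 * n : ℝ) ^ Fintype.card (Edge n)) :=
    sum_lt_sum (fun ω _ => mul_le_mul_of_nonneg_left (hdet ω).le (hp ω))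
      ⟨ω₀, mem_univ _, mul_lt_mul_of_pos_left (hdet ω₀) hω₀⟩
  rw [← sum_mul, hp1, one_mul] at h2
  linarith

/-- **Theorem.** Let `P ω` be a random program (`ω` has the probability `p ω`) with at most `2 ^ S`
states which, on each input whose weights between the first two parts are all `1 - 4 n` and whose
other weights are in `[0, 4 n)`, reports in `T` steps exactly the edges between the first two
parts which are in no triangle of weight zero, with probability at least `2 / 3`. Then
`n ^ 6 < 1600 W T ^ 2` with `W = (⌊log₂ n⌋ + 4) (S + 2 ⌊log₂ n⌋ + 4)`, provided that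
`200 W ≤ n ^ 2`. -/
theorem result (n S T : ℕ) (Ω : Type) [Fintype Ω] (p : Ω → ℝ) (hp : ∀ ω, 0 ≤ p ω)
    (hp1 : ∑ ω, p ω = 1) (Q : Ω → Type) [∀ ω, Fintype (Q ω)] (P : ∀ ω, Prog n (Q ω))
    (hQ : ∀ ω, Fintype.card (Q ω) ≤ 2 ^ S)
    (hright : ∀ w : Edge n → ℤ, Special w →
      (2 / 3 : ℝ) ≤ ∑ ω, open Classical in if (P ω).Right w T then p ω else 0)
    (W : ℕ) (hW : W = (Nat.log 2 n + 4) * (S + 2 * Nat.log 2 n + 4)) (hWn : 200 * W ≤ n ^ 2) :
    n ^ 6 < 1600 * (W * T ^ 2) := by
  have hW16 : 16 ≤ W := by
    rw [hW]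
    calc 16 = 4 * 4 := rfl
      _ ≤ _ := Nat.mul_le_mul (by omega) (by omega)
  have hn : 0 < n := by
    rcases Nat.eq_zero_or_pos n with h | h
    · subst h
      simp at hWn
      omega
    · exact h
  set s := Nat.sqrt (16 * W) + 1 with hs
  have h1 : 16 * W < s * s := by
    rw [hs]
    exact Nat.lt_succ_sqrt (16 * W)
  have h2 : s * s ≤ 25 * W := by
    have h3 : Nat.sqrt (16 * W) * Nat.sqrt (16 * W) ≤ 16 * W := Nat.sqrt_le (16 * W)
    have h4 : s * s = Nat.sqrt (16 * W) * Nat.sqrt (16 * W) + 2 * Nat.sqrt (16 * W) + 1 := by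
      rw [hs]; ring
    have h5 : 2 * Nat.sqrt (16 * W) + 1 ≤ 9 * W := by
      by_contra hc
      rw [not_le] at hc
      have h6 : 4 * W < Nat.sqrt (16 * W) := by omega
      have h7 : (4 * W) * (4 * W) < Nat.sqrt (16 * W) * Nat.sqrt (16 * W) :=
        Nat.mul_lt_mul_of_lt_of_lt h6 h6
      nlinarith
    omega
  have h3 := bound n S T s hn Ω p hp hp1 Q P hQ hright (by omega) (by omega)
    (by rw [← hW]; exact h1.le)
  have h4 : n ^ 3 * n ^ 3 < (8 * (s * T)) * (8 * (s * T)) := Nat.mul_lt_mul_of_lt_of_lt h3 h3
  calc n ^ 6 = n ^ 3 * n ^ 3 := by ring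
    _ < (8 * (s * T)) * (8 * (s * T)) := h4
    _ = 64 * ((s * s) * T ^ 2) := by ring
    _ ≤ 64 * ((25 * W) * T ^ 2) := by gcongr
    _ = 1600 * (W * T ^ 2) := by ring

end Pool.Agent.Results.MP_62fbe0_lc.SpaceBoundedAllEdges
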