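import Mathlib

/-!
# Exact Triangle: three players who miss one third of the weights each

Instances: a complete tripartite graph with `n` vertices in each part; `a i j`, `b j k` and `c i k` are the integer weights of
the edges between the parts 1 and 2, the parts 2 and 3, and the parts 1 and 3. The question is whether some triangle has
weight `0` (`ZeroTriangle`). All the instances used below have weights of absolute value at most `9 n ^ 2`.

There is one player for each part. The player of a part sees all the weights of the edges at its part, that is two of the three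
matrices: the first player sees `a` and `c`, the second one sees `a` and `b`, the third one sees `b` and `c`.

* `protocols`: each deterministic protocol for the three players, who write bits on a blackboard, needs at least `n ^ 2 / 1024`
  bits. (A player can write one of its matrices, so `O (n ^ 2 log n)` bits suffice.)
* `broadcast`: in each deterministic algorithm for the broadcast congested clique (the network has the `3 n` vertices of the
  graph as its nodes, every node knows the `2 n` weights at this node, and every node sends the same `w` bits to all the other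
  nodes in each round) the number of rounds is at least about `n / (3072 w)`.
* `certificates`: the instances without a triangle of weight zero are not covered by less than `2 ^ (n ^ 2 / 1024)` certificates,
  where a certificate is a triple of conditions, one for each player (nondeterministic communication complexity).

Proof. Choose `N = n ^ 2 / 1024` and an injection `e` of `N × 32 × 32` into `n × n`. For pointers `x j`, `y j r` (numbers below
`32`) and bits `z j r s` we write down weights such that there is a triangle of weight zero if and only if some bit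
`z j (x j) (y j (x j))` is one. For `k = i + j` modulo `n` the three edges of a triangle determine one another, and a pair of
vertices belongs to one such triangle. The number `4 (k - i - j) (k - i - j + n)` is a sum of three terms which depend on two of
the three vertices; it is zero exactly for these triangles, and it is a multiple of `4`. So one can add `0` or `1` to each of
the weights, and the weight of a triangle is zero if and only if `k = i + j` modulo `n` and the three extra terms are zero
(`zero_iff`). The extra term of `(i, j) = e (j, r, s)` says whether `r = x j`; the second one whether `s = y j r`; the third one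
whether `z j r s` is one. By two applications of the inequality of Cauchy and Schwarz the sign
`(-1) ^ (sum of the N addressed bits)` has small correlation with each product of three functions which depend on `(x, y)`,
`(x, z)` and `(y, z)` (`core`; for each block the pairs of pointers `x j ≠ x' j` force `y j = y' j` in two places, which has
probability `1 / 32 ^ 2`). But on a certificate all the signs are `1`. This is an adaptation of an argument of Rao and Yehudayoff
for disjointness; the pointers make the number of blocks linear in the number of bits.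
-/

set_option autoImplicit false

namespace Pool.Agent.Results.MP_62fbe0_lc.ThreePartyProtocols

open Finset

/-! ### The signs -/

/-- `-1` for the bit `true`, `1` for `false` -/
def sg (b : Bool) : ℝ := if b then -1 else 1

theorem sg_not (b : Bool) : sg (!b) = - sg b := by cases b <;> norm_num [sg]

theorem sg_abs (b : Bool) : |sg b| = 1 := by cases b <;> norm_num [sg]

/-- flip one entry -/
def flip {q : ℕ} (r c : Fin q) (z : Fin q → Fin q → Bool) : Fin q → Fin q → Bool :=
  fun r' c' => if r' = r ∧ c' = c then !(z r' c') else z r' c'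

theorem flip_flip {q : ℕ} (r c : Fin q) (z : Fin q → Fin q → Bool) : flip r c (flip r c z) = z := by
  funext r' c'
  unfold flip
  split_ifs <;> simp

theorem sum_flip {q : ℕ} (r c : Fin q) (φ : (Fin q → Fin q → Bool) → ℝ) :
    ∑ z, φ (flip r c z) = ∑ z, φ z :=
  Fintype.sum_bijective (flip r c) (Function.Involutive.bijective (flip_flip r c)) _ _ fun _ => rfl

theorem sum_zero {q : ℕ} (r c : Fin q) (φ : (Fin q → Fin q → Bool) → ℝ) (h : ∀ z, φ (flip r c z) = - φ z) :
    ∑ z, φ z = 0 := by
  have h1 := sum_flip r c φ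
  simp only [h, Finset.sum_neg_distrib] at h1
  linarith

/-- the sign of the block for the pointers `x`, `y` -/
def s1 {q : ℕ} (x : Fin q) (y : Fin q → Fin q) (z : Fin q → Fin q → Bool) : ℝ := sg (z x (y x))

/-- the blocks which do not cancel -/
def kap {q : ℕ} (x x' : Fin q) (y y' : Fin q → Fin q) : ℝ :=
  if x = x' then 1 else (if y x = y' x then 1 else 0) * (if y x' = y' x' then 1 else 0)

/-- the sum over the bits of a block -/
theorem block_sum {q : ℕ} (x x' : Fin q) (y y' : Fin q → Fin q) :
    |∑ z : Fin q → Fin q → Bool, s1 x y z * s1 x' y z * (s1 x y' z * s1 x' y' z)| ≤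
      (Fintype.card (Fin q → Fin q → Bool) : ℝ) * kap x x' y y' := by
  unfold kap
  have htriv : |∑ z : Fin q → Fin q → Bool, s1 x y z * s1 x' y z * (s1 x y' z * s1 x' y' z)| ≤
      (Fintype.card (Fin q → Fin q → Bool) : ℝ) := by
    refine (Finset.abs_sum_le_sum_abs _ _).trans ?_
    have : ∀ z : Fin q → Fin q → Bool, |s1 x y z * s1 x' y z * (s1 x y' z * s1 x' y' z)| = 1 := by
      intro z
      unfold s1
      rw [abs_mul, abs_mul, abs_mul, sg_abs, sg_abs, sg_abs, sg_abs]
      norm_num
    simp only [this, Finset.sum_const, nsmul_eq_mul, mul_one, Finset.card_univ]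
    exact le_rfl
  by_cases hx : x = x'
  · rw [if_pos hx, mul_one]
    exact htriv
  · rw [if_neg hx]
    by_cases h1 : y x = y' x
    · by_cases h2 : y x' = y' x'
      · rw [if_pos h1, if_pos h2, mul_one, mul_one]
        exact htriv
      · rw [if_neg h2, mul_zero, mul_zero]
        rw [sum_zero x' (y x')]
        · simp
        · intro z
          unfold s1 flip
          rw [if_neg (fun h => hx h.1), if_pos ⟨rfl, rfl⟩, if_neg (fun h => hx h.1),
            if_neg (fun h => h2 h.2.symm), sg_not]
          ring
    · rw [if_neg h1, zero_mul, mul_zero]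
      rw [sum_zero x (y x)]
      · simp
      · intro z
        unfold s1 flip
        rw [if_pos ⟨rfl, rfl⟩, if_neg (fun h => hx h.1.symm), if_neg (fun h => h1 h.2.symm),
          if_neg (fun h => hx h.1.symm), sg_not]
        ring

/-! ### Sums of products -/

theorem sum_pi {N : ℕ} {α : Type} [Fintype α] [DecidableEq α] (φ : Fin N → α → ℝ) :
    ∑ p : Fin N → α, ∏ j, φ j (p j) = ∏ j, ∑ a, φ j a := by
  rw [Finset.prod_univ_sum, Fintype.piFinset_univ]

theorem sum_pi2 {N : ℕ} {α : Type} [Fintype α] [DecidableEq α] (φ : Fin N → α → α → ℝ) :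
    ∑ p : Fin N → α, ∑ p' : Fin N → α, ∏ j, φ j (p j) (p' j) = ∏ j, ∑ a, ∑ a', φ j a a' := by
  have h1 : ∀ p : Fin N → α, ∑ p' : Fin N → α, ∏ j, φ j (p j) (p' j) = ∏ j, ∑ a', φ j (p j) a' :=
    fun p => sum_pi fun j a' => φ j (p j) a'
  simp only [h1]
  exact sum_pi fun j a => ∑ a', φ j a a'

/-- the number of pairs of pointer functions -/
theorem kap_sum {q : ℕ} (x x' : Fin q) :
    ∑ y : Fin q → Fin q, ∑ y' : Fin q → Fin q, kap x x' y y' =
      (Fintype.card (Fin q → Fin q) : ℝ) ^ 2 * (if x = x' then 1 else 1 / (q : ℝ)) ^ 2 := by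
  have hq : 0 < q := x.pos
  have hq0 : (q : ℝ) ≠ 0 := by exact_mod_cast hq.ne'
  unfold kap
  by_cases hx : x = x'
  · simp only [if_pos hx, Finset.sum_const, Finset.card_univ, nsmul_eq_mul]
    ring
  · simp only [if_neg hx]
    have h1 : ∀ y y' : Fin q → Fin q, ((if y x = y' x then 1 else 0) * (if y x' = y' x' then 1 else 0) : ℝ) =
        ∏ r, (if r = x ∨ r = x' then (if y r = y' r then (1 : ℝ) else 0) else 1) := by
      intro y y'
      rw [Finset.prod_ite, Finset.prod_const_one, mul_one]
      have h2 : (univ : Finset (Fin q)).filter (fun r => r = x ∨ r = x') = {x, x'} := by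
        ext r
        simp
      rw [h2, Finset.prod_pair hx]
    simp only [h1]
    rw [sum_pi2 (fun (r : Fin q) (a a' : Fin q) => if r = x ∨ r = x' then (if a = a' then (1 : ℝ) else 0) else 1)]
    have h3 : ∀ r : Fin q, (∑ a : Fin q, ∑ a' : Fin q, if r = x ∨ r = x' then (if a = a' then (1 : ℝ) else 0) else 1) =
        (q : ℝ) ^ 2 * (if r = x ∨ r = x' then 1 / (q : ℝ) else 1) := by
      intro r
      by_cases hr : r = x ∨ r = x'
      · simp only [if_pos hr, Finset.sum_ite_eq, Finset.mem_univ, if_true, Finset.sum_const, Finset.card_univ,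
          Fintype.card_fin, nsmul_eq_mul, mul_one]
        field_simp
      · simp only [if_neg hr, Finset.sum_const, Finset.card_univ, Fintype.card_fin, nsmul_eq_mul, mul_one]
        ring
    simp only [h3]
    rw [Finset.prod_mul_distrib, Finset.prod_const, Finset.card_univ, Fintype.card_fin, Finset.prod_ite,
      Finset.prod_const_one, mul_one, Finset.prod_const]
    have h2 : (univ : Finset (Fin q)).filter (fun r => r = x ∨ r = x') = {x, x'} := by
      ext r
      simp
    rw [h2, Finset.card_pair hx]
    rw [Fintype.card_fun, Fintype.card_fin]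
    push_cast
    ring

/-! ### Cylinder intersections have a small correlation with the sign -/

section core

variable {N q : ℕ}

/-- the first pointers -/
abbrev TX (N q : ℕ) := Fin N → Fin q
/-- the second pointers -/
abbrev TY (N q : ℕ) := Fin N → Fin q → Fin q
/-- the bits -/
abbrev TZ (N q : ℕ) := Fin N → Fin q → Fin q → Bool

/-- the sign -/
def sgn (x : TX N q) (y : TY N q) (z : TZ N q) : ℝ := ∏ j, s1 (x j) (y j) (z j)

/-- the weight of two systems of first pointers -/
noncomputable def lam (x x' : TX N q) : ℝ := ∏ j, (if x j = x' j then 1 else 1 / (q : ℝ))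

theorem lam_nonneg (x x' : TX N q) : 0 ≤ lam x x' :=
  Finset.prod_nonneg fun j _ => by split_ifs <;> positivity

theorem z_sum (x x' : TX N q) (y y' : TY N q) :
    |∑ z : TZ N q, sgn x y z * sgn x' y z * (sgn x y' z * sgn x' y' z)| ≤
      (Fintype.card (TZ N q) : ℝ) * ∏ j, kap (x j) (x' j) (y j) (y' j) := by
  have h1 : ∀ z : TZ N q, sgn x y z * sgn x' y z * (sgn x y' z * sgn x' y' z) =
      ∏ j, (s1 (x j) (y j) (z j) * s1 (x' j) (y j) (z j) * (s1 (x j) (y' j) (z j) * s1 (x' j) (y' j) (z j))) := by
    intro z
    unfold sgn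
    simp only [Finset.prod_mul_distrib]
  simp only [h1]
  rw [sum_pi (fun j (ζ : Fin q → Fin q → Bool) => s1 (x j) (y j) ζ * s1 (x' j) (y j) ζ *
    (s1 (x j) (y' j) ζ * s1 (x' j) (y' j) ζ)), Finset.abs_prod]
  have h2 : ((Fintype.card (TZ N q) : ℕ) : ℝ) = ∏ _j : Fin N, (Fintype.card (Fin q → Fin q → Bool) : ℝ) := by
    rw [Fintype.card_fun, Finset.prod_const, Finset.card_univ]
    push_cast
    rfl
  rw [h2, ← Finset.prod_mul_distrib]
  exact Finset.prod_le_prod (fun j _ => abs_nonneg _) fun j _ => block_sum _ _ _ _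

theorem inner_bound (x x' : TX N q) (F : TY N q → ℝ) (G : TZ N q → ℝ) (hF : ∀ y, |F y| ≤ 1) (hG : ∀ z, |G z| ≤ 1) :
    |∑ z, G z * ∑ y, F y * (sgn x y z * sgn x' y z)| ≤
      (Fintype.card (TY N q) : ℝ) * (Fintype.card (TZ N q) : ℝ) * lam x x' := by
  have hGsq : ∑ z, G z ^ 2 ≤ (Fintype.card (TZ N q) : ℝ) := by
    calc ∑ z, G z ^ 2 ≤ ∑ _z : TZ N q, (1 : ℝ) := Finset.sum_le_sum fun z _ => by
          have := hG z
          rw [← sq_abs]
          exact pow_le_one₀ (abs_nonneg _) this
      _ = _ := by rw [Finset.sum_const, nsmul_eq_mul, mul_one, Finset.card_univ]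
  have hU : ∑ z, (∑ y, F y * (sgn x y z * sgn x' y z)) ^ 2 ≤
      (Fintype.card (TZ N q) : ℝ) * ((Fintype.card (TY N q) : ℝ) ^ 2 * lam x x' ^ 2) := by
    have e1 : ∀ z : TZ N q, (∑ y, F y * (sgn x y z * sgn x' y z)) ^ 2 =
        ∑ y, ∑ y', F y * F y' * (sgn x y z * sgn x' y z * (sgn x y' z * sgn x' y' z)) := by
      intro z
      rw [sq, Finset.sum_mul_sum]
      refine Finset.sum_congr rfl fun y _ => Finset.sum_congr rfl fun y' _ => ?_
      ring
    simp only [e1]
    rw [Finset.sum_comm]
    have e2 : ∀ y : TY N q, ∑ z : TZ N q, ∑ y', F y * F y' * (sgn x y z * sgn x' y z * (sgn x y' z * sgn x' y' z)) =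
        ∑ y', F y * F y' * ∑ z : TZ N q, (sgn x y z * sgn x' y z * (sgn x y' z * sgn x' y' z)) := by
      intro y
      rw [Finset.sum_comm]
      exact Finset.sum_congr rfl fun y' _ => by rw [Finset.mul_sum]
    simp only [e2]
    calc _ ≤ ∑ y : TY N q, ∑ y' : TY N q, (Fintype.card (TZ N q) : ℝ) * ∏ j, kap (x j) (x' j) (y j) (y' j) := by
          refine Finset.sum_le_sum fun y _ => Finset.sum_le_sum fun y' _ => ?_
          refine (le_abs_self _).trans ?_
          rw [abs_mul, abs_mul]
          have h1 := z_sum x x' y y'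
          have h2 : |F y| * |F y'| ≤ 1 := mul_le_one₀ (hF y) (abs_nonneg _) (hF y')
          calc |F y| * |F y'| * _ ≤ 1 * _ := mul_le_mul_of_nonneg_right h2 (abs_nonneg _)
            _ ≤ _ := by rw [one_mul]; exact h1
      _ = (Fintype.card (TZ N q) : ℝ) * ∏ j, ∑ a, ∑ a', kap (x j) (x' j) a a' := by
          rw [← sum_pi2 (fun j a a' => kap (x j) (x' j) a a'), Finset.mul_sum]
          exact Finset.sum_congr rfl fun y _ => by rw [Finset.mul_sum]
      _ = _ := by
          simp only [kap_sum]
          rw [Finset.prod_mul_distrib, Finset.prod_const, Finset.card_univ, Fintype.card_fin, Finset.prod_pow]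
          unfold lam
          congr 2
          rw [Fintype.card_fun (α := Fin N), Fintype.card_fin]
          push_cast
          ring
  have hCS := Finset.sum_mul_sq_le_sq_mul_sq (univ : Finset (TZ N q)) G (fun z => ∑ y, F y * (sgn x y z * sgn x' y z))
  have hY : (0 : ℝ) ≤ (Fintype.card (TY N q) : ℝ) := Nat.cast_nonneg _
  have hZ : (0 : ℝ) ≤ (Fintype.card (TZ N q) : ℝ) := Nat.cast_nonneg _
  have hl := lam_nonneg x x'
  refine abs_le_of_sq_le_sq ?_ (by positivity)
  calc _ ≤ (∑ z, G z ^ 2) * ∑ z, (∑ y, F y * (sgn x y z * sgn x' y z)) ^ 2 := hCS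
    _ ≤ (Fintype.card (TZ N q) : ℝ) * ((Fintype.card (TZ N q) : ℝ) * ((Fintype.card (TY N q) : ℝ) ^ 2 * lam x x' ^ 2)) :=
        mul_le_mul hGsq hU (Finset.sum_nonneg fun z _ => sq_nonneg _) hZ
    _ = _ := by ring

theorem lam_sum (hq : 0 < q) : ∑ x : TX N q, ∑ x' : TX N q, lam x x' ≤ (2 * q : ℝ) ^ N := by
  unfold lam
  rw [sum_pi2 (fun (_ : Fin N) (a a' : Fin q) => if a = a' then (1 : ℝ) else 1 / (q : ℝ))]
  rw [Finset.prod_const, Finset.card_univ, Fintype.card_fin]
  have hq0 : (0 : ℝ) < q := by exact_mod_cast hq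
  refine pow_le_pow_left₀ (Finset.sum_nonneg fun a _ => Finset.sum_nonneg fun a' _ => by split_ifs <;> positivity) ?_ N
  calc ∑ a : Fin q, ∑ a' : Fin q, (if a = a' then (1 : ℝ) else 1 / (q : ℝ)) ≤
      ∑ a : Fin q, ∑ a' : Fin q, ((if a = a' then (1 : ℝ) else 0) + 1 / (q : ℝ)) := by
        refine Finset.sum_le_sum fun a _ => Finset.sum_le_sum fun a' _ => ?_
        split_ifs
        · have : (0 : ℝ) ≤ 1 / q := by positivity
          linarith
        · linarith
    _ = 2 * q := by
        simp only [Finset.sum_add_distrib, Finset.sum_ite_eq, Finset.mem_univ, if_true, Finset.sum_const,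
          Finset.card_univ, Fintype.card_fin, nsmul_eq_mul, mul_one]
        field_simp
        ring

/-- **the discrepancy bound** -/
theorem core (hq : 0 < q) (f : TX N q → TY N q → ℝ) (g : TX N q → TZ N q → ℝ) (h : TY N q → TZ N q → ℝ)
    (hf : ∀ x y, |f x y| ≤ 1) (hg : ∀ x z, |g x z| ≤ 1) (hh : ∀ y z, |h y z| ≤ 1) :
    (∑ y, ∑ z, h y z * ∑ x, f x y * g x z * sgn x y z) ^ 2 ≤
      ((Fintype.card (TY N q) : ℝ) * (Fintype.card (TZ N q) : ℝ)) ^ 2 * (2 * q : ℝ) ^ N := by
  set cY : ℝ := (Fintype.card (TY N q) : ℝ) with hcY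
  set cZ : ℝ := (Fintype.card (TZ N q) : ℝ) with hcZ
  have hY : (0 : ℝ) ≤ cY := Nat.cast_nonneg _
  have hZ : (0 : ℝ) ≤ cZ := Nat.cast_nonneg _
  have h0 : ∑ y, ∑ z, h y z * ∑ x, f x y * g x z * sgn x y z =
      ∑ p : TY N q × TZ N q, h p.1 p.2 * ∑ x, f x p.1 * g x p.2 * sgn x p.1 p.2 := by
    rw [Fintype.sum_prod_type]
  rw [h0]
  have hCS := Finset.sum_mul_sq_le_sq_mul_sq (univ : Finset (TY N q × TZ N q)) (fun p => h p.1 p.2)
    (fun p => ∑ x, f x p.1 * g x p.2 * sgn x p.1 p.2)
  have h1 : ∑ p : TY N q × TZ N q, h p.1 p.2 ^ 2 ≤ cY * cZ := by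
    calc ∑ p : TY N q × TZ N q, h p.1 p.2 ^ 2 ≤ ∑ _p : TY N q × TZ N q, (1 : ℝ) :=
          Finset.sum_le_sum fun p _ => by
            rw [← sq_abs]
            exact pow_le_one₀ (abs_nonneg _) (hh _ _)
      _ = _ := by
          rw [Finset.sum_const, nsmul_eq_mul, mul_one, Finset.card_univ, Fintype.card_prod]
          push_cast
          rfl
  have h2 : ∑ p : TY N q × TZ N q, (∑ x, f x p.1 * g x p.2 * sgn x p.1 p.2) ^ 2 ≤ cY * cZ * (2 * q : ℝ) ^ N := by
    have e1 : ∑ p : TY N q × TZ N q, (∑ x, f x p.1 * g x p.2 * sgn x p.1 p.2) ^ 2 =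
        ∑ x, ∑ x', ∑ z, (g x z * g x' z) * ∑ y, (f x y * f x' y) * (sgn x y z * sgn x' y z) := by
      have e2 : ∀ p : TY N q × TZ N q, (∑ x, f x p.1 * g x p.2 * sgn x p.1 p.2) ^ 2 =
          ∑ x, ∑ x', (g x p.2 * g x' p.2) * ((f x p.1 * f x' p.1) * (sgn x p.1 p.2 * sgn x' p.1 p.2)) := by
        intro p
        rw [sq, Finset.sum_mul_sum]
        refine Finset.sum_congr rfl fun y _ => Finset.sum_congr rfl fun y' _ => ?_
        ring
      simp only [e2]
      rw [Finset.sum_comm]
      refine Finset.sum_congr rfl fun x _ => ?_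
      rw [Finset.sum_comm]
      refine Finset.sum_congr rfl fun x' _ => ?_
      rw [Fintype.sum_prod_type_right]
      exact Finset.sum_congr rfl fun z _ => by rw [Finset.mul_sum]
    rw [e1]
    calc _ ≤ ∑ x : TX N q, ∑ x' : TX N q, cY * cZ * lam x x' := by
          refine Finset.sum_le_sum fun x _ => Finset.sum_le_sum fun x' _ => ?_
          refine (le_abs_self _).trans (inner_bound x x' (fun y => f x y * f x' y) (fun z => g x z * g x' z)
            (fun y => ?_) (fun z => ?_))
          · rw [abs_mul]
            exact mul_le_one₀ (hf _ _) (abs_nonneg _) (hf _ _)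
          · rw [abs_mul]
            exact mul_le_one₀ (hg _ _) (abs_nonneg _) (hg _ _)
      _ = cY * cZ * ∑ x : TX N q, ∑ x' : TX N q, lam x x' := by
          rw [Finset.mul_sum]
          exact Finset.sum_congr rfl fun x _ => by rw [Finset.mul_sum]
      _ ≤ _ := mul_le_mul_of_nonneg_left (lam_sum hq) (by positivity)
  calc _ ≤ _ := hCS
    _ ≤ (cY * cZ) * (cY * cZ * (2 * q : ℝ) ^ N) :=
        mul_le_mul h1 h2 (Finset.sum_nonneg fun p _ => sq_nonneg _) (by positivity)
    _ = _ := by ring

/-- the bit which is addressed by the pointers of some block is one -/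
def One (x : TX N q) (y : TY N q) (z : TZ N q) : Prop := ∃ j, z j (x j) (y j (x j)) = true

open Classical in
theorem ind_not_one (x : TX N q) (y : TY N q) (z : TZ N q) :
    (if ¬ One x y z then (1 : ℝ) else 0) = ∏ j, (1 + s1 (x j) (y j) (z j)) / 2 := by
  by_cases h : One x y z
  · rw [if_neg (not_not.2 h)]
    obtain ⟨j, hj⟩ := h
    rw [Finset.prod_eq_zero (Finset.mem_univ j)]
    unfold s1
    rw [hj]
    norm_num [sg]
  · rw [if_pos h]
    symm
    refine Finset.prod_eq_one fun j _ => ?_
    have hj : z j (x j) (y j (x j)) = false := by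
      by_contra h1
      exact h ⟨j, by simpa using h1⟩
    unfold s1
    rw [hj]
    norm_num [sg]

theorem sgn_eq_one (x : TX N q) (y : TY N q) (z : TZ N q) (h : ¬ One x y z) : sgn x y z = 1 := by
  unfold sgn
  refine Finset.prod_eq_one fun j _ => ?_
  have hj : z j (x j) (y j (x j)) = false := by
    by_contra h1
    exact h ⟨j, by simpa using h1⟩
  unfold s1
  rw [hj]
  norm_num [sg]

open Classical in
theorem sum_not_one : ∑ x : TX N q, ∑ y : TY N q, ∑ z : TZ N q, (if ¬ One x y z then (1 : ℝ) else 0) =
    (q : ℝ) ^ N * ((Fintype.card (TY N q) : ℝ) * (Fintype.card (TZ N q) : ℝ)) / 2 ^ N := by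
  simp only [ind_not_one]
  have h1 : ∀ (x : TX N q) (y : TY N q), ∑ z : TZ N q, ∏ j, (1 + s1 (x j) (y j) (z j)) / 2 =
      (Fintype.card (TZ N q) : ℝ) / 2 ^ N := by
    intro x y
    rw [sum_pi (fun j (ζ : Fin q → Fin q → Bool) => (1 + s1 (x j) (y j) ζ) / 2)]
    have h2 : ∀ j : Fin N, ∑ ζ : Fin q → Fin q → Bool, (1 + s1 (x j) (y j) ζ) / 2 =
        (Fintype.card (Fin q → Fin q → Bool) : ℝ) / 2 := by
      intro j
      rw [← Finset.sum_div, Finset.sum_add_distrib, Finset.sum_const, nsmul_eq_mul, mul_one, Finset.card_univ,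
        sum_zero (x j) (y j (x j)) (fun ζ => s1 (x j) (y j) ζ), add_zero]
      intro ζ
      unfold s1 flip
      rw [if_pos ⟨rfl, rfl⟩, sg_not]
    simp only [h2]
    rw [Finset.prod_const, Finset.card_univ, Fintype.card_fin, div_pow, Fintype.card_fun (α := Fin N), Fintype.card_fin]
    push_cast
    rfl
  simp only [h1, Finset.sum_const, Finset.card_univ, nsmul_eq_mul]
  have h3 : ((Fintype.card (TX N q) : ℕ) : ℝ) = (q : ℝ) ^ N := by
    rw [Fintype.card_fun, Fintype.card_fin, Fintype.card_fin]
    push_cast
    rfl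
  rw [h3]
  ring

open Classical in
/-- the instances without a one need many cylinder intersections -/
theorem cover (N : ℕ) (ι : Type) [Fintype ι] (f : ι → TX N 32 → TY N 32 → Prop) (g : ι → TX N 32 → TZ N 32 → Prop)
    (h : ι → TY N 32 → TZ N 32 → Prop) (hc : ∀ x y z, ¬ One x y z → ∃ i, f i x y ∧ g i x z ∧ h i y z)
    (hs : ∀ x y z i, f i x y → g i x z → h i y z → ¬ One x y z) : 2 ^ N ≤ Fintype.card ι := by
  set cY : ℝ := (Fintype.card (TY N 32) : ℝ) with hcY
  set cZ : ℝ := (Fintype.card (TZ N 32) : ℝ) with hcZ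
  have hY : (0 : ℝ) < cY := by rw [hcY]; exact_mod_cast Fintype.card_pos
  have hZ : (0 : ℝ) < cZ := by rw [hcZ]; exact_mod_cast Fintype.card_pos
  have h1 : ∀ i, ∑ x : TX N 32, ∑ y : TY N 32, ∑ z : TZ N 32, (if f i x y ∧ g i x z ∧ h i y z then (1 : ℝ) else 0) ≤
      cY * cZ * 8 ^ N := by
    intro i
    have h2 := core (N := N) (q := 32) (by norm_num) (fun x y => if f i x y then (1 : ℝ) else 0)
      (fun x z => if g i x z then (1 : ℝ) else 0) (fun y z => if h i y z then (1 : ℝ) else 0)
      (fun x y => by split_ifs <;> norm_num) (fun x z => by split_ifs <;> norm_num)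
      (fun x z => by split_ifs <;> norm_num)
    have h3 : ∑ x : TX N 32, ∑ y : TY N 32, ∑ z : TZ N 32, (if f i x y ∧ g i x z ∧ h i y z then (1 : ℝ) else 0) =
        ∑ y : TY N 32, ∑ z : TZ N 32, (if h i y z then (1 : ℝ) else 0) * ∑ x, (if f i x y then (1 : ℝ) else 0) *
          (if g i x z then (1 : ℝ) else 0) * sgn x y z := by
      rw [Finset.sum_comm]
      refine Finset.sum_congr rfl fun y _ => ?_
      rw [Finset.sum_comm]
      refine Finset.sum_congr rfl fun z _ => ?_
      rw [Finset.mul_sum]
      refine Finset.sum_congr rfl fun x _ => ?_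
      by_cases hall : f i x y ∧ g i x z ∧ h i y z
      · rw [if_pos hall, if_pos hall.1, if_pos hall.2.1, if_pos hall.2.2,
          sgn_eq_one x y z (hs x y z i hall.1 hall.2.1 hall.2.2)]
        norm_num
      · rw [if_neg hall]
        by_cases hf : f i x y
        · by_cases hg : g i x z
          · have hh : ¬ h i y z := fun hh => hall ⟨hf, hg, hh⟩
            rw [if_neg hh, zero_mul]
          · rw [if_neg hg]
            ring
        · rw [if_neg hf]
          ring
    rw [h3]
    refine le_of_sq_le_sq (h2.trans (le_of_eq ?_)) (by positivity)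
    have h4 : (2 * ((32 : ℕ) : ℝ)) ^ N = (8 ^ N) ^ 2 := by
      rw [← pow_mul, mul_comm N 2, pow_mul]
      norm_num
    rw [h4]
    ring
  have h2 : ∑ x : TX N 32, ∑ y : TY N 32, ∑ z : TZ N 32, (if ¬ One x y z then (1 : ℝ) else 0) ≤
      Fintype.card ι * (cY * cZ * 8 ^ N) := by
    calc _ ≤ ∑ x : TX N 32, ∑ y : TY N 32, ∑ z : TZ N 32, ∑ i, (if f i x y ∧ g i x z ∧ h i y z then (1 : ℝ) else 0) := by
          refine Finset.sum_le_sum fun x _ => Finset.sum_le_sum fun y _ => Finset.sum_le_sum fun z _ => ?_
          by_cases hn : One x y z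
          · rw [if_neg (not_not.2 hn)]
            exact Finset.sum_nonneg fun i _ => by split_ifs <;> norm_num
          · rw [if_pos hn]
            obtain ⟨i, hi⟩ := hc x y z hn
            calc (1 : ℝ) = (if f i x y ∧ g i x z ∧ h i y z then (1 : ℝ) else 0) := by rw [if_pos hi]
              _ ≤ _ := Finset.single_le_sum (f := fun i => (if f i x y ∧ g i x z ∧ h i y z then (1 : ℝ) else 0))
                  (fun i _ => by split_ifs <;> norm_num) (Finset.mem_univ i)
      _ = ∑ i, ∑ x : TX N 32, ∑ y : TY N 32, ∑ z : TZ N 32, (if f i x y ∧ g i x z ∧ h i y z then (1 : ℝ) else 0) := by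
          have e1 : ∀ (x : TX N 32) (y : TY N 32), ∑ z : TZ N 32, ∑ i, (if f i x y ∧ g i x z ∧ h i y z then (1 : ℝ) else 0) =
              ∑ i, ∑ z : TZ N 32, (if f i x y ∧ g i x z ∧ h i y z then (1 : ℝ) else 0) := fun x y => Finset.sum_comm
          simp only [e1]
          have e2 : ∀ x : TX N 32, ∑ y : TY N 32, ∑ i, ∑ z : TZ N 32, (if f i x y ∧ g i x z ∧ h i y z then (1 : ℝ) else 0) =
              ∑ i, ∑ y : TY N 32, ∑ z : TZ N 32, (if f i x y ∧ g i x z ∧ h i y z then (1 : ℝ) else 0) :=
            fun x => Finset.sum_comm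
          simp only [e2]
          exact Finset.sum_comm
      _ ≤ ∑ _i : ι, cY * cZ * 8 ^ N := Finset.sum_le_sum fun i _ => h1 i
      _ = _ := by rw [Finset.sum_const, nsmul_eq_mul, Finset.card_univ]
  rw [sum_not_one] at h2
  have h3 : ((32 : ℕ) : ℝ) ^ N * (cY * cZ) / 2 ^ N = cY * cZ * 16 ^ N := by
    have : ((32 : ℕ) : ℝ) ^ N = 16 ^ N * 2 ^ N := by
      rw [← mul_pow]
      norm_num
    rw [this]
    field_simp
  have h4 : cY * cZ * 16 ^ N ≤ Fintype.card ι * (cY * cZ * 8 ^ N) := by
    rw [← h3]
    exact h2
  have h5 : (16 : ℝ) ^ N = 2 ^ N * 8 ^ N := by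
    rw [← mul_pow]
    norm_num
  rw [h5] at h4
  have h6 : (2 : ℝ) ^ N * (cY * cZ * 8 ^ N) ≤ Fintype.card ι * (cY * cZ * 8 ^ N) := by linarith
  have h7 := le_of_mul_le_mul_right h6 (by positivity)
  exact_mod_cast h7

end core

/-! ### Exact Triangle -/

section triangle

variable {n : ℕ}

/-- There is a triangle of weight zero: `a i j`, `b j k` and `c i k` are the weights of the edges between the first and the
second, the second and the third, and the first and the third part. -/
def ZeroTriangle (a b c : Fin n → Fin n → ℤ) : Prop := ∃ i j k, a i j + b j k + c i k = 0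

/-- `k` is the sum of `i` and `j` modulo `n` -/
def D (i j k : Fin n) : Prop := k.1 = i.1 + j.1 ∨ k.1 + n = i.1 + j.1

theorem D_uniq1 {i i' j k : Fin n} (h : D i j k) (h' : D i' j k) : i = i' := by
  unfold D at h h'
  apply Fin.ext
  have := i.2
  have := i'.2
  omega

theorem D_uniq2 {i j j' k : Fin n} (h : D i j k) (h' : D i j' k) : j = j' := by
  unfold D at h h'
  apply Fin.ext
  have := j.2
  have := j'.2
  omega

theorem D_ex (i j : Fin n) : ∃ k, D i j k := by
  by_cases h : i.1 + j.1 < n
  · exact ⟨⟨i.1 + j.1, h⟩, Or.inl rfl⟩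
  · have := i.2
    have := j.2
    exact ⟨⟨i.1 + j.1 - n, by omega⟩, Or.inr (by simp only; omega)⟩

/-- the square of `k - i - j`, plus `n` times this number -/
theorem D_iff (i j k : Fin n) : D i j k ↔
    ((k.1 : ℤ) - i.1 - j.1) * ((k.1 : ℤ) - i.1 - j.1 + n) = 0 := by
  unfold D
  rw [mul_eq_zero]
  omega

variable {N q : ℕ} (e : Fin N × Fin q × Fin q → Fin n × Fin n)

open Classical in
/-- the weights of the edges between the first and the second part -/
noncomputable def wa (x : TX N q) : Fin n → Fin n → ℤ := fun i j =>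
  4 * ((i.1 : ℤ) ^ 2 + (j.1 : ℤ) ^ 2 + 2 * i.1 * j.1 - n * i.1 - n * j.1) +
    (if ∃ p, e p = (i, j) ∧ p.2.1 = x p.1 then 0 else 1)

open Classical in
/-- the weights of the edges between the second and the third part -/
noncomputable def wb (y : TY N q) : Fin n → Fin n → ℤ := fun j k =>
  4 * ((k.1 : ℤ) ^ 2 - 2 * j.1 * k.1 + n * k.1) +
    (if ∃ p, (e p).2 = j ∧ D (e p).1 j k ∧ p.2.2 = y p.1 p.2.1 then 0 else 1)

open Classical in
/-- the weights of the edges between the first and the third part -/
noncomputable def wc (z : TZ N q) : Fin n → Fin n → ℤ := fun i k =>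
  4 * (- 2 * i.1 * k.1) +
    (if ∃ p, (e p).1 = i ∧ D i (e p).2 k ∧ z p.1 p.2.1 p.2.2 = true then 0 else 1)

theorem zero_iff (he : Function.Injective e) (x : TX N q) (y : TY N q) (z : TZ N q) :
    ZeroTriangle (wa e x) (wb e y) (wc e z) ↔ One x y z := by
  classical
  constructor
  · rintro ⟨i, j, k, h⟩
    unfold wa wb wc at h
    set m : ℤ := ((k.1 : ℤ) - i.1 - j.1) * ((k.1 : ℤ) - i.1 - j.1 + n) with hm
    have hm' : m = ((i.1 : ℤ) ^ 2 + (j.1 : ℤ) ^ 2 + 2 * i.1 * j.1 - n * i.1 - n * j.1) +
        ((k.1 : ℤ) ^ 2 - 2 * j.1 * k.1 + n * k.1) + (- 2 * i.1 * k.1) := by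
      rw [hm]
      ring
    by_cases h1 : ∃ p, e p = (i, j) ∧ p.2.1 = x p.1
    · by_cases h2 : ∃ p, (e p).2 = j ∧ D (e p).1 j k ∧ p.2.2 = y p.1 p.2.1
      · by_cases h3 : ∃ p, (e p).1 = i ∧ D i (e p).2 k ∧ z p.1 p.2.1 p.2.2 = true
        · rw [if_pos h1, if_pos h2, if_pos h3] at h
          have hD : D i j k := (D_iff i j k).2 (by rw [← hm]; linarith)
          obtain ⟨p1, hp1, hx⟩ := h1
          obtain ⟨p2, hp2, hD2, hy⟩ := h2
          obtain ⟨p3, hp3, hD3, hz⟩ := h3
          have e2 : p2 = p1 := he (by
            rw [hp1]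
            exact Prod.ext (D_uniq1 hD2 hD) hp2)
          have e3 : p3 = p1 := he (by
            rw [hp1]
            exact Prod.ext hp3 (D_uniq2 hD3 hD))
          subst e2
          subst e3
          refine ⟨p3.1, ?_⟩
          rw [← hx, ← hy]
          exact hz
        · rw [if_pos h1, if_pos h2, if_neg h3] at h
          omega
      · rw [if_pos h1, if_neg h2] at h
        split_ifs at h <;> omega
    · rw [if_neg h1] at h
      split_ifs at h <;> omega
  · rintro ⟨j₀, hj⟩
    set p : Fin N × Fin q × Fin q := (j₀, x j₀, y j₀ (x j₀)) with hp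
    obtain ⟨k, hk⟩ := D_ex (e p).1 (e p).2
    refine ⟨(e p).1, (e p).2, k, ?_⟩
    unfold wa wb wc
    rw [if_pos ⟨p, rfl, rfl⟩, if_pos ⟨p, rfl, hk, rfl⟩, if_pos ⟨p, rfl, hk, hj⟩]
    have h1 := (D_iff _ _ _).1 hk
    linear_combination 4 * h1

theorem wa_le (x : TX N q) (i j : Fin n) : |wa e x i j| ≤ 9 * (n : ℤ) ^ 2 := by
  have hi : (i.1 : ℤ) < n := by exact_mod_cast i.2
  have hj : (j.1 : ℤ) < n := by exact_mod_cast j.2
  have hi0 : (0 : ℤ) ≤ i.1 := Int.natCast_nonneg _
  have hj0 : (0 : ℤ) ≤ j.1 := Int.natCast_nonneg _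
  have hn : (1 : ℤ) ≤ n := by omega
  unfold wa
  rw [abs_le]
  constructor <;> split_ifs <;> nlinarith [mul_nonneg hi0 hj0, mul_nonneg hi0 hi0, mul_nonneg hj0 hj0,
    mul_nonneg hi0 (sub_nonneg.2 hi.le), mul_nonneg hj0 (sub_nonneg.2 hj.le), mul_nonneg (sub_nonneg.2 hi.le)
      (sub_nonneg.2 hj.le)]

theorem wb_le (y : TY N q) (j k : Fin n) : |wb e y j k| ≤ 9 * (n : ℤ) ^ 2 := by
  have hi : (k.1 : ℤ) < n := by exact_mod_cast k.2
  have hj : (j.1 : ℤ) < n := by exact_mod_cast j.2
  have hi0 : (0 : ℤ) ≤ k.1 := Int.natCast_nonneg _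
  have hj0 : (0 : ℤ) ≤ j.1 := Int.natCast_nonneg _
  have hn : (1 : ℤ) ≤ n := by omega
  unfold wb
  rw [abs_le]
  constructor <;> split_ifs <;> nlinarith [mul_nonneg hi0 hj0, mul_nonneg hi0 hi0, mul_nonneg hj0 hj0,
    mul_nonneg hi0 (sub_nonneg.2 hi.le), mul_nonneg hj0 (sub_nonneg.2 hj.le), mul_nonneg (sub_nonneg.2 hi.le)
      (sub_nonneg.2 hj.le), mul_nonneg hi0 (sub_nonneg.2 hj.le), mul_nonneg hj0 (sub_nonneg.2 hi.le)]

theorem wc_le (z : TZ N q) (i k : Fin n) : |wc e z i k| ≤ 9 * (n : ℤ) ^ 2 := by
  have hi : (i.1 : ℤ) < n := by exact_mod_cast i.2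
  have hj : (k.1 : ℤ) < n := by exact_mod_cast k.2
  have hi0 : (0 : ℤ) ≤ i.1 := Int.natCast_nonneg _
  have hj0 : (0 : ℤ) ≤ k.1 := Int.natCast_nonneg _
  have hn : (1 : ℤ) ≤ n := by omega
  unfold wc
  rw [abs_le]
  constructor <;> split_ifs <;> nlinarith [mul_nonneg hi0 hj0, mul_nonneg hi0 (sub_nonneg.2 hj.le),
    mul_nonneg hj0 (sub_nonneg.2 hi.le)]

/-- all the weights are at most `9 n ^ 2` in absolute value -/
def Small (w : Fin n → Fin n → ℤ) : Prop := ∀ i j, |w i j| ≤ 9 * (n : ℤ) ^ 2

end triangle

/-! ### Certificates -/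

/-- a matrix of weights between two of the three parts -/
abbrev Weights (n : ℕ) := Fin n → Fin n → ℤ

/-- A family of triples of conditions, one for each player, such that an instance with small weights has no triangle of weight
zero if and only if some triple holds. -/
def Certifies (n : ℕ) {ι : Type} (f g h : ι → Weights n → Weights n → Prop) : Prop :=
  ∀ a b c : Weights n, Small a → Small b → Small c →
    ((¬ ZeroTriangle a b c) ↔ ∃ i, g i a c ∧ f i a b ∧ h i b c)

theorem certificates (n : ℕ) (ι : Type) [Fintype ι] (f g h : ι → Weights n → Weights n → Prop)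
    (hc : Certifies n f g h) : 2 ^ (n ^ 2 / 1024) ≤ Fintype.card ι := by
  have hcard : Fintype.card (Fin (n ^ 2 / 1024) × Fin 32 × Fin 32) ≤ Fintype.card (Fin n × Fin n) := by
    simp only [Fintype.card_prod, Fintype.card_fin]
    have h1 := Nat.div_mul_le_self (n ^ 2) 1024
    have h2 : n ^ 2 = n * n := sq n
    omega
  obtain ⟨e⟩ := Function.Embedding.nonempty_of_card_le hcard
  refine cover (n ^ 2 / 1024) ι (fun i x y => f i (wa e x) (wb e y)) (fun i x z => g i (wa e x) (wc e z))
    (fun i y z => h i (wb e y) (wc e z)) ?_ ?_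
  · intro x y z h1
    rw [← zero_iff e e.injective x y z] at h1
    obtain ⟨i, h2, h3, h4⟩ := (hc _ _ _ (wa_le e x) (wb_le e y) (wc_le e z)).1 h1
    exact ⟨i, h3, h2, h4⟩
  · intro x y z i hf hg hh
    rw [← zero_iff e e.injective x y z]
    exact (hc _ _ _ (wa_le e x) (wb_le e y) (wc_le e z)).2 ⟨i, hg, hf, hh⟩

/-! ### Protocols -/

/-- A deterministic protocol for three players and one blackboard: a finite binary tree. At an inner node one of the players
writes one bit, which is a function of the two matrices it sees: `a` and `c` for the first player, `a` and `b` for the second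
one, `b` and `c` for the third one. At a leaf there is an answer. -/
inductive Protocol (n : ℕ) : Type
  | answer (r : Bool) : Protocol n
  | first (m : Weights n → Weights n → Bool) (p q : Protocol n) : Protocol n
  | second (m : Weights n → Weights n → Bool) (p q : Protocol n) : Protocol n
  | third (m : Weights n → Weights n → Bool) (p q : Protocol n) : Protocol n

namespace Protocol

variable {n : ℕ}

/-- the answer of the protocol for the weights `a`, `b`, `c` -/
def run (a b c : Weights n) : Protocol n → Bool
  | answer r => r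
  | first m p q => if m a c = true then run a b c p else run a b c q
  | second m p q => if m a b = true then run a b c p else run a b c q
  | third m p q => if m b c = true then run a b c p else run a b c q

/-- the number of bits which are written in the worst case -/
def bits : Protocol n → ℕ
  | answer _ => 0
  | first _ p q => max (bits p) (bits q) + 1
  | second _ p q => max (bits p) (bits q) + 1
  | third _ p q => max (bits p) (bits q) + 1

/-- the protocol is right for all the instances with small weights -/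
def Correct (P : Protocol n) : Prop :=
  ∀ a b c : Weights n, Small a → Small b → Small c → (P.run a b c = true ↔ ZeroTriangle a b c)

theorem pow_max (s t : ℕ) : 2 ^ s + 2 ^ t ≤ 2 ^ (max s t + 1) := by
  have h1 : 2 ^ s ≤ 2 ^ (max s t) := Nat.pow_le_pow_right (by norm_num) (le_max_left _ _)
  have h2 : 2 ^ t ≤ 2 ^ (max s t) := Nat.pow_le_pow_right (by norm_num) (le_max_right _ _)
  rw [pow_succ]
  omega

theorem family (P : Protocol n) : ∃ (ι : Type) (_ : Fintype ι) (f g h : ι → Weights n → Weights n → Prop),
    Fintype.card ι ≤ 2 ^ P.bits ∧ ∀ a b c, P.run a b c = false ↔ ∃ i, g i a c ∧ f i a b ∧ h i b c := by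
  induction P with
  | answer r =>
    cases r
    · refine ⟨Unit, inferInstance, fun _ _ _ => True, fun _ _ _ => True, fun _ _ _ => True, ?_, ?_⟩
      · simp [bits]
      · intro a b c
        simp [run]
    · refine ⟨Empty, inferInstance, fun _ _ _ => True, fun _ _ _ => True, fun _ _ _ => True, ?_, ?_⟩
      · simp [bits]
      · intro a b c
        simp [run]
  | first m p q ihp ihq =>
    obtain ⟨ι, _, f, g, h, hcard, hP⟩ := ihp
    obtain ⟨ι', _, f', g', h', hcard', hP'⟩ := ihq
    refine ⟨ι ⊕ ι', inferInstance, Sum.elim f f', Sum.elim (fun i a c => m a c = true ∧ g i a c)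
      (fun i a c => m a c = false ∧ g' i a c), Sum.elim h h', ?_, ?_⟩
    · rw [Fintype.card_sum]
      exact (Nat.add_le_add hcard hcard').trans (pow_max _ _)
    · intro a b c
      rw [run]
      by_cases hm : m a c = true
      · rw [if_pos hm, hP]
        simp [hm]
      · rw [if_neg hm, hP']
        simp [hm]
  | second m p q ihp ihq =>
    obtain ⟨ι, _, f, g, h, hcard, hP⟩ := ihp
    obtain ⟨ι', _, f', g', h', hcard', hP'⟩ := ihq
    refine ⟨ι ⊕ ι', inferInstance, Sum.elim (fun i a c => m a c = true ∧ f i a c)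
      (fun i a c => m a c = false ∧ f' i a c), Sum.elim g g', Sum.elim h h', ?_, ?_⟩
    · rw [Fintype.card_sum]
      exact (Nat.add_le_add hcard hcard').trans (pow_max _ _)
    · intro a b c
      rw [run]
      by_cases hm : m a b = true
      · rw [if_pos hm, hP]
        simp [hm]
      · rw [if_neg hm, hP']
        simp [hm]
  | third m p q ihp ihq =>
    obtain ⟨ι, _, f, g, h, hcard, hP⟩ := ihp
    obtain ⟨ι', _, f', g', h', hcard', hP'⟩ := ihq
    refine ⟨ι ⊕ ι', inferInstance, Sum.elim f f', Sum.elim g g', Sum.elim (fun i a c => m a c = true ∧ h i a c)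
      (fun i a c => m a c = false ∧ h' i a c), ?_, ?_⟩
    · rw [Fintype.card_sum]
      exact (Nat.add_le_add hcard hcard').trans (pow_max _ _)
    · intro a b c
      rw [run]
      by_cases hm : m b c = true
      · rw [if_pos hm, hP]
        simp [hm]
      · rw [if_neg hm, hP']
        simp [hm]

end Protocol

theorem protocols (n : ℕ) (P : Protocol n) (hP : P.Correct) : n ^ 2 / 1024 ≤ P.bits := by
  obtain ⟨ι, _, f, g, h, hcard, hfam⟩ := P.family
  have h1 := certificates n ι f g h fun a b c ha hb hc => by
    rw [← hfam a b c, ← hP a b c ha hb hc]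
    simp
  exact (Nat.pow_le_pow_iff_right (by norm_num)).1 (h1.trans hcard)

/-! ### The broadcast congested clique -/

/-- What is sent in one round: one of `B` symbols for every vertex of the first, of the second, and of the third part. -/
abbrev Round (n B : ℕ) := (Fin n → Fin B) × (Fin n → Fin B) × (Fin n → Fin B)

/-- A deterministic algorithm for the broadcast congested clique whose nodes are the `3 n` vertices. In each round every vertex
sends one of `B` symbols to all the others. The symbol is a function of the two rows or columns of weights at this vertex and of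
everything that was sent in the rounds before (a list, the last round first). At the end the answer is a function of everything
that was sent. -/
structure Broadcast (n B : ℕ) where
  /-- the symbol of the vertex `i` of the first part; it is applied to the rows `a i` and `c i` -/
  first : Fin n → (Fin n → ℤ) → (Fin n → ℤ) → List (Round n B) → Fin B
  /-- the symbol of the vertex `j` of the second part; it is applied to the column `j` of `a` and to the row `b j` -/
  second : Fin n → (Fin n → ℤ) → (Fin n → ℤ) → List (Round n B) → Fin B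
  /-- the symbol of the vertex `k` of the third part; it is applied to the column `k` of `c` and to the column `k` of `b` -/
  third : Fin n → (Fin n → ℤ) → (Fin n → ℤ) → List (Round n B) → Fin B
  /-- the answer -/
  answer : List (Round n B) → Bool

namespace Broadcast

variable {n B : ℕ}

/-- what is sent after `l` was sent -/
def next (A : Broadcast n B) (a b c : Weights n) (l : List (Round n B)) : Round n B :=
  (fun i => A.first i (a i) (c i) l, fun j => A.second j (fun i => a i j) (b j) l,
    fun k => A.third k (fun i => c i k) (fun j => b j k) l)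

/-- what is sent in the first `t` rounds -/
def history (A : Broadcast n B) (a b c : Weights n) : ℕ → List (Round n B)
  | 0 => []
  | t + 1 => A.next a b c (history A a b c t) :: history A a b c t

/-- the algorithm with `R` rounds is right for all the instances with small weights -/
def Correct (A : Broadcast n B) (R : ℕ) : Prop :=
  ∀ a b c : Weights n, Small a → Small b → Small c → (A.answer (A.history a b c R) = true ↔ ZeroTriangle a b c)

/-- a condition holds in all the rounds -/
def All (p : Round n B → List (Round n B) → Prop) : List (Round n B) → Prop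
  | [] => True
  | m :: l => p m l ∧ All p l

theorem all_iff (A : Broadcast n B) (a b c : Weights n) (l : List (Round n B)) :
    (All (fun m l => ∀ i, m.1 i = A.first i (a i) (c i) l) l ∧
      All (fun m l => ∀ j, m.2.1 j = A.second j (fun i => a i j) (b j) l) l ∧
      All (fun m l => ∀ k, m.2.2 k = A.third k (fun i => c i k) (fun j => b j k) l) l) ↔
    l = A.history a b c l.length := by
  induction l with
  | nil => simp [All, history]
  | cons m l ih =>
    rw [List.length_cons, history, List.cons_eq_cons]
    constructor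
    · rintro ⟨⟨h1, h1'⟩, ⟨h2, h2'⟩, ⟨h3, h3'⟩⟩
      have hl := ih.1 ⟨h1', h2', h3'⟩
      refine ⟨?_, hl⟩
      rw [← hl]
      exact Prod.ext (funext h1) (Prod.ext (funext h2) (funext h3))
    · rintro ⟨hm, hl⟩
      obtain ⟨h1, h2, h3⟩ := ih.2 hl
      rw [← hl] at hm
      refine ⟨⟨fun i => ?_, h1⟩, ⟨fun i => ?_, h2⟩, ⟨fun i => ?_, h3⟩⟩
      · rw [hm]
        rfl
      · rw [hm]
        rfl
      · rw [hm]
        rfl

end Broadcast

theorem history_length {n B : ℕ} (A : Broadcast n B) (a b c : Weights n) (t : ℕ) :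
    (A.history a b c t).length = t := by
  induction t with
  | zero => rfl
  | succ t ih => rw [Broadcast.history, List.length_cons, ih]

theorem broadcast (n w R : ℕ) (A : Broadcast n (2 ^ w)) (hA : A.Correct R) : n ^ 2 / 1024 ≤ 3 * n * R * w := by
  have h1 := certificates n (List.Vector (Round n (2 ^ w)) R)
    (fun τ a b => Broadcast.All (fun m l => ∀ j, m.2.1 j = A.second j (fun i => a i j) (b j) l) τ.1)
    (fun τ a c => Broadcast.All (fun m l => ∀ i, m.1 i = A.first i (a i) (c i) l) τ.1 ∧ A.answer τ.1 = false)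
    (fun τ b c => Broadcast.All (fun m l => ∀ k, m.2.2 k = A.third k (fun i => c i k) (fun j => b j k) l) τ.1)
    (fun a b c ha hb hc => by
      rw [← hA a b c ha hb hc]
      constructor
      · intro h
        refine ⟨⟨A.history a b c R, history_length A a b c R⟩, ?_⟩
        have h2 := (Broadcast.all_iff A a b c (A.history a b c R)).2 (by rw [history_length])
        exact ⟨⟨h2.1, by simpa using h⟩, h2.2.1, h2.2.2⟩
      · rintro ⟨τ, ⟨h2, h3⟩, h4, h5⟩
        have h6 := (Broadcast.all_iff A a b c τ.1).1 ⟨h2, h4, h5⟩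
        rw [τ.2] at h6
        rw [← h6, h3]
        simp)
  have h2 : Fintype.card (List.Vector (Round n (2 ^ w)) R) = 2 ^ (3 * n * R * w) := by
    rw [card_vector, Fintype.card_prod, Fintype.card_prod, Fintype.card_fun, Fintype.card_fin, Fintype.card_fin]
    rw [← pow_mul, ← pow_add, ← pow_add, ← pow_mul]
    congr 1
    ring
  rw [h2] at h1
  exact (Nat.pow_le_pow_iff_right (by norm_num)).1 h1

/-- **Exact Triangle with three players, each of whom misses one third of the weights.** Weights of absolute value at most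
`9 n ^ 2`. (1) A correct deterministic protocol needs `n ^ 2 / 1024` bits. (2) A correct deterministic algorithm for the
broadcast congested clique with `R` rounds and messages of `w` bits has `n ^ 2 / 1024 ≤ 3 n R w`. (3) At least
`2 ^ (n ^ 2 / 1024)` certificates are needed to certify that there is no triangle of weight zero. -/
theorem result :
    (∀ (n : ℕ) (P : Protocol n), P.Correct → n ^ 2 / 1024 ≤ P.bits) ∧
    (∀ (n w R : ℕ) (A : Broadcast n (2 ^ w)), A.Correct R → n ^ 2 / 1024 ≤ 3 * n * R * w) ∧
    (∀ (n : ℕ) (ι : Type) [Fintype ι] (f g h : ι → Weights n → Weights n → Prop), Certifies n f g h →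
      2 ^ (n ^ 2 / 1024) ≤ Fintype.card ι) :=
  ⟨protocols, broadcast, fun n ι _ f g h hc => certificates n ι f g h hc⟩

end Pool.Agent.Results.MP_62fbe0_lc.ThreePartyProtocols

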